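import Pool.Agent.Helper5.FP.Power

/-!
# Many sums with a representation that is not normal
-/

set_option autoImplicit false

namespace Pool.Agent.Helper5.FP.Np

open Pool.Agent.Helper5.FP.Text Pool.Agent.Helper5.FP.Cand

/-- joint normality gives normality of the zeros of the summand -/
theorem zeros_of_joint {K n a : ℕ} {d : ℝ} (h : Joint 2 1 d K n a) :
    ({i | i < K ∧ a / 2 ^ i % 2 ^ 1 = 0}.ncard : ℝ) < K / 2 + 2 * d * K := by
  have h0 := h 0 (by norm_num) 0 (by norm_num)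
  have h1 := h 1 (by norm_num) 0 (by norm_num)
  have h2 : {i | i < K ∧ a / 2 ^ i % 2 ^ 1 = 0} ⊆
      {i | i < K ∧ n / 2 ^ i % 2 ^ 1 = 0 ∧ a / 2 ^ i % 2 ^ 1 = 0} ∪
      {i | i < K ∧ n / 2 ^ i % 2 ^ 1 = 1 ∧ a / 2 ^ i % 2 ^ 1 = 0} := by
    rintro i ⟨hi, hi'⟩
    rcases Nat.mod_two_eq_zero_or_one (n / 2 ^ i) with h | h
    · exact Or.inl ⟨hi, by simpa using h, hi'⟩
    · exact Or.inr ⟨hi, by simpa using h, hi'⟩
  have hf : ({i | i < K ∧ n / 2 ^ i % 2 ^ 1 = 0 ∧ a / 2 ^ i % 2 ^ 1 = 0} ∪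
      {i | i < K ∧ n / 2 ^ i % 2 ^ 1 = 1 ∧ a / 2 ^ i % 2 ^ 1 = 0}).Finite :=
    ((Set.finite_lt_nat K).subset fun i hi => hi.1).union
      ((Set.finite_lt_nat K).subset fun i hi => hi.1)
  have h3 : ({i | i < K ∧ a / 2 ^ i % 2 ^ 1 = 0}.ncard : ℝ) ≤
      (blocks2 2 1 0 0 K n a : ℝ) + blocks2 2 1 1 0 K n a := by
    have := (Set.ncard_le_ncard h2 hf).trans (Set.ncard_union_le _ _)
    unfold blocks2
    exact_mod_cast this
  have h4 := (abs_lt.1 h0).2
  have h5 := (abs_lt.1 h1).2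
  norm_num at h4 h5
  linarith

theorem npart {A : Set ℕ} {c C C₀ : ℝ} (hc : 0 < c)
    (hbas : ∀ n : ℕ, ∃ a ∈ A, ∃ a' ∈ A, a + a' = n)
    (hms : ∀ x : ℕ, ∑ n ∈ Finset.range x, (rep A n : ℝ) ^ 2 ≤ C₀ * x)
    (h : ∀ (K : ℕ) (d : ℝ), 0 ≤ d → d ≤ c → c * ((2 : ℝ) ^ K) ^ (1 / 2 - C * d ^ 4) ≤
      {a | a ∈ A ∧ 2 ^ K ≤ a ∧ a < 2 ^ (K + 1) ∧
        (1 / 2 + d) * K ≤ ({i | i < K ∧ a / 2 ^ i % 2 ^ 1 = 0}.ncard : ℝ)}.ncard) :
    ∃ c' C' : ℝ, 0 < c' ∧ ∀ (K : ℕ) (d : ℝ), 1 ≤ K → 0 ≤ d → d ≤ c' →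
      c' * ((2 : ℝ) ^ K) ^ (1 - C' * d ^ 4) ≤
        {n | n < 2 ^ K ∧ ∃ a ∈ A, ∃ a' ∈ A, a + a' = n ∧
          (¬ Joint 2 1 d K n a ∨ d * K ≤ |(carries 2 K a a' : ℝ) - K / 2|)}.ncard := by
  classical
  have h0A : 0 ∈ A := by
    obtain ⟨a, ha, a', ha', hs⟩ := hbas 0
    have : a = 0 := by omega
    rwa [this] at ha
  have hC₀ : 1 ≤ C₀ := by
    have h1 := hms 1
    rw [Finset.sum_range_one, Nat.cast_one, mul_one] at h1
    have h2 : 1 ≤ rep A 0 := by
      exact (Set.ncard_pos (Pool.Agent.Helper16.NM.rep_set_finite A 0)).2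
        ⟨(0, 0), h0A, h0A, rfl⟩
    have h3 : (1 : ℝ) ≤ rep A 0 := by exact_mod_cast h2
    nlinarith
  set C₁ : ℝ := max C 0 with hC₁
  have hC₁0 : 0 ≤ C₁ := le_max_right _ _
  refine ⟨min (min (c / 4) (1 / 8)) (c ^ 2 / (8 * C₀)), 512 * C₁,
    lt_min (lt_min (by positivity) (by norm_num)) (by positivity), fun K d hK hd hdc => ?_⟩
  have hd1 : d ≤ c / 4 := hdc.trans ((min_le_left _ _).trans (min_le_left _ _))
  have hd2 : d ≤ 1 / 8 := hdc.trans ((min_le_left _ _).trans (min_le_right _ _))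
  set T : Set ℕ := {n | n < 2 ^ K ∧ ∃ a ∈ A, ∃ a' ∈ A, a + a' = n ∧
    (¬ Joint 2 1 d K n a ∨ d * K ≤ |(carries 2 K a a' : ℝ) - K / 2|)} with hT
  have hTf : T.Finite := (Set.finite_lt_nat (2 ^ K)).subset fun n hn => hn.1
  set y : ℝ := 1 - 512 * C₁ * d ^ 4 with hy
  have hd4 : 0 ≤ d ^ 4 := by positivity
  have hy1 : y ≤ 1 := by
    have : 0 ≤ 512 * C₁ * d ^ 4 := by positivity
    linarith
  have hx0 : (0 : ℝ) < (2 : ℝ) ^ K := by positivity
  have hx1 : (1 : ℝ) ≤ (2 : ℝ) ^ K := one_le_pow₀ (by norm_num)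
  rcases lt_or_ge K 4 with hK4 | hK4
  · -- small K
    have h1 : 0 ∈ T := by
      refine ⟨by positivity, 0, h0A, 0, h0A, rfl, Or.inl fun hJ => ?_⟩
      have h2 := hJ 0 (by norm_num) 0 (by norm_num)
      have h3 : blocks2 2 1 0 0 K 0 0 = K := by
        unfold blocks2
        have : {i | i < K ∧ 0 / 2 ^ i % 2 ^ 1 = 0 ∧ 0 / 2 ^ i % 2 ^ 1 = 0} =
            ((Finset.range K : Finset ℕ) : Set ℕ) := by
          ext i
          simp
        rw [this, Set.ncard_coe_finset, Finset.card_range]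
      rw [h3] at h2
      have h4 := (abs_lt.1 h2).2
      have hKr : (1 : ℝ) ≤ K := by exact_mod_cast hK
      norm_num at h4
      nlinarith
    have h2 : 1 ≤ T.ncard := (Set.ncard_pos hTf).2 ⟨0, h1⟩
    have h3 : ((2 : ℝ) ^ K) ^ y ≤ 8 := by
      calc ((2 : ℝ) ^ K) ^ y ≤ ((2 : ℝ) ^ K) ^ (1 : ℝ) :=
            Real.rpow_le_rpow_of_exponent_le hx1 hy1
        _ = (2 : ℝ) ^ K := Real.rpow_one _
        _ ≤ (2 : ℝ) ^ 3 := pow_le_pow_right₀ (by norm_num) (by omega)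
        _ = 8 := by norm_num
    calc min (min (c / 4) (1 / 8)) (c ^ 2 / (8 * C₀)) * ((2 : ℝ) ^ K) ^ y
        ≤ 1 / 8 * 8 := mul_le_mul ((min_le_left _ _).trans (min_le_right _ _)) h3
          (by positivity) (by norm_num)
      _ = 1 := by norm_num
      _ ≤ T.ncard := by exact_mod_cast h2
  · -- large K
    obtain ⟨M, rfl⟩ : ∃ M, K = M + 2 := ⟨K - 2, by omega⟩
    have hM2 : 2 ≤ M := by omega
    have hMr : (2 : ℝ) ≤ M := by exact_mod_cast hM2
    set E : Finset ℕ := (Finset.range (2 ^ (M + 1))).filter fun a => a ∈ A ∧ 2 ^ M ≤ a ∧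
      (1 / 2 + 4 * d) * M ≤ ({i | i < M ∧ a / 2 ^ i % 2 ^ 1 = 0}.ncard : ℝ) with hE
    set A' : Finset ℕ := (Finset.range (2 ^ (M + 1))).filter fun a => a ∈ A with hA'
    set S : Finset ℕ := (E ×ˢ A').image fun p => p.1 + p.2 with hS
    -- the sums are in T
    have hST : (S : Set ℕ) ⊆ T := by
      intro n hn
      rw [Finset.mem_coe, hS, Finset.mem_image] at hn
      obtain ⟨p, hp, rfl⟩ := hn
      rw [Finset.mem_product, hE, hA', Finset.mem_filter, Finset.mem_filter, Finset.mem_range,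
        Finset.mem_range] at hp
      obtain ⟨⟨h1, h2, h3, h4⟩, h5, h6⟩ := hp
      refine ⟨?_, p.1, h2, p.2, h6, rfl, Or.inl fun hJ => ?_⟩
      · rw [show M + 2 = M + 1 + 1 by ring, pow_succ]
        omega
      · have h7 := zeros_of_joint hJ
        have h8 : insert (M + 1) {i | i < M ∧ p.1 / 2 ^ i % 2 ^ 1 = 0} ⊆
            {i | i < M + 2 ∧ p.1 / 2 ^ i % 2 ^ 1 = 0} := by
          intro i hi
          rcases hi with hi | hi
          · rw [hi]
            exact ⟨by omega, by rw [Nat.div_eq_of_lt h1, Nat.zero_mod]⟩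
          · exact ⟨by have := hi.1; omega, hi.2⟩
        have h9 : ({i | i < M ∧ p.1 / 2 ^ i % 2 ^ 1 = 0}.ncard : ℝ) + 1 ≤
            ({i | i < M + 2 ∧ p.1 / 2 ^ i % 2 ^ 1 = 0}.ncard : ℝ) := by
          have hf : {i | i < M ∧ p.1 / 2 ^ i % 2 ^ 1 = 0}.Finite :=
            (Set.finite_lt_nat M).subset fun i hi => hi.1
          have g1 := Set.ncard_insert_of_notMem (a := M + 1)
            (s := {i | i < M ∧ p.1 / 2 ^ i % 2 ^ 1 = 0}) (fun hi => by
              have := hi.1; omega) hf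
          have g2 := Set.ncard_le_ncard h8
            ((Set.finite_lt_nat (M + 2)).subset fun i hi => hi.1)
          rw [g1] at g2
          exact_mod_cast g2
        push_cast at h7
        nlinarith
    -- the size of E
    have hEc : c * ((2 : ℝ) ^ M) ^ (1 / 2 - C * (4 * d) ^ 4) ≤ E.card := by
      have h1 := h M (4 * d) (by linarith) (by linarith)
      have e1 : {a | a ∈ A ∧ 2 ^ M ≤ a ∧ a < 2 ^ (M + 1) ∧
          (1 / 2 + 4 * d) * M ≤ ({i | i < M ∧ a / 2 ^ i % 2 ^ 1 = 0}.ncard : ℝ)} =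
          (E : Set ℕ) := by
        ext a
        rw [hE, Finset.coe_filter, Set.mem_ofPred_eq, Set.mem_ofPred_eq, Finset.mem_range]
        tauto
      rw [e1, Set.ncard_coe_finset] at h1
      exact h1
    -- the size of A'
    have hA'c : (2 : ℝ) ^ (M + 1) ≤ (A'.card : ℝ) ^ 2 := by
      have h1 : Finset.range (2 ^ (M + 1)) ⊆ (A' ×ˢ A').image fun p => p.1 + p.2 := by
        intro n hn
        rw [Finset.mem_range] at hn
        obtain ⟨a, ha, a', ha', hs⟩ := hbas n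
        refine Finset.mem_image.2 ⟨(a, a'), Finset.mem_product.2 ⟨?_, ?_⟩, hs⟩
        · exact Finset.mem_filter.2 ⟨Finset.mem_range.2 (by show a < _; omega), ha⟩
        · exact Finset.mem_filter.2 ⟨Finset.mem_range.2 (by show a' < _; omega), ha'⟩
      have h2 := (Finset.card_le_card h1).trans Finset.card_image_le
      rw [Finset.card_range, Finset.card_product] at h2
      rw [sq]
      exact_mod_cast h2
    -- Cauchy-Schwarz
    have hcs : ((E.card : ℝ) * A'.card) ^ 2 ≤ S.card * (C₀ * (2 : ℝ) ^ (M + 2)) := by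
      have h1 : (E ×ˢ A').card = ∑ n ∈ S, ((E ×ˢ A').filter fun p => p.1 + p.2 = n).card :=
        Finset.card_eq_sum_card_fiberwise fun p hp =>
          Finset.mem_coe.2 (Finset.mem_image_of_mem _ (Finset.mem_coe.1 hp))
      have h2 : (E.card : ℝ) * A'.card =
          ∑ n ∈ S, (((E ×ˢ A').filter fun p => p.1 + p.2 = n).card : ℝ) := by
        rw [Finset.card_product] at h1
        exact_mod_cast h1
      rw [h2]
      refine sq_sum_le_card_mul_sum_sq.trans (mul_le_mul_of_nonneg_left ?_ (Nat.cast_nonneg _))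
      have h3 : S ⊆ Finset.range (2 ^ (M + 2)) := fun n hn =>
        Finset.mem_range.2 (hST (Finset.mem_coe.2 hn)).1
      calc ∑ n ∈ S, (((E ×ˢ A').filter fun p => p.1 + p.2 = n).card : ℝ) ^ 2
          ≤ ∑ n ∈ S, (rep A n : ℝ) ^ 2 := by
            refine Finset.sum_le_sum fun n _ => pow_le_pow_left₀ (Nat.cast_nonneg _) ?_ 2
            have : ((E ×ˢ A').filter fun p => p.1 + p.2 = n).card ≤ rep A n := by
              rw [← Set.ncard_coe_finset]
              refine Set.ncard_le_ncard ?_ (Pool.Agent.Helper16.NM.rep_set_finite A n)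
              intro p hp
              rw [Finset.mem_coe, Finset.mem_filter, Finset.mem_product] at hp
              exact ⟨(Finset.mem_filter.1 hp.1.1).2.1, (Finset.mem_filter.1 hp.1.2).2, hp.2⟩
            exact_mod_cast this
        _ ≤ ∑ n ∈ Finset.range (2 ^ (M + 2)), (rep A n : ℝ) ^ 2 :=
            Finset.sum_le_sum_of_subset_of_nonneg h3 fun _ _ _ => by positivity
        _ ≤ C₀ * (2 : ℝ) ^ (M + 2) := by
            have := hms (2 ^ (M + 2))
            push_cast at this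
            exact this
    -- the computation
    have hm0 : (0 : ℝ) < (2 : ℝ) ^ M := by positivity
    have hm1 : (1 : ℝ) ≤ (2 : ℝ) ^ M := one_le_pow₀ (by norm_num)
    have hE2 : c ^ 2 * ((2 : ℝ) ^ M) ^ y ≤ (E.card : ℝ) ^ 2 := by
      have h1 : c * ((2 : ℝ) ^ M) ^ (y / 2) ≤ E.card := by
        refine le_trans (mul_le_mul_of_nonneg_left
          (Real.rpow_le_rpow_of_exponent_le hm1 ?_) hc.le) hEc
        have h2 : C * (4 * d) ^ 4 ≤ C₁ * (4 * d) ^ 4 :=
          mul_le_mul_of_nonneg_right (le_max_left _ _) (by positivity)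
        have h3 : (4 * d) ^ 4 = 256 * d ^ 4 := by ring
        rw [h3] at h2 ⊢
        rw [hy]
        linarith
      have h2 := pow_le_pow_left₀ (by positivity) h1 2
      rw [mul_pow, ← Real.rpow_natCast (((2 : ℝ) ^ M) ^ (y / 2)) 2, ← Real.rpow_mul hm0.le] at h2
      push_cast at h2
      rwa [show y / 2 * 2 = y by ring] at h2
    have h4y : ((2 : ℝ) ^ (M + 2)) ^ y ≤ 4 * ((2 : ℝ) ^ M) ^ y := by
      rw [pow_add, Real.mul_rpow hm0.le (by norm_num), mul_comm]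
      refine mul_le_mul_of_nonneg_right ?_ (by positivity)
      calc ((2 : ℝ) ^ 2) ^ y ≤ ((2 : ℝ) ^ 2) ^ (1 : ℝ) :=
            Real.rpow_le_rpow_of_exponent_le (by norm_num) hy1
        _ = 4 := by rw [Real.rpow_one]; norm_num
    have hSc : c ^ 2 / (8 * C₀) * ((2 : ℝ) ^ (M + 2)) ^ y ≤ S.card := by
      have h1 : c ^ 2 * ((2 : ℝ) ^ M) ^ y * (2 : ℝ) ^ (M + 1) ≤
          S.card * (C₀ * (2 : ℝ) ^ (M + 2)) := by
        refine le_trans ?_ hcs
        rw [mul_pow]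
        exact mul_le_mul hE2 hA'c (by positivity) (by positivity)
      have h2 : c ^ 2 * ((2 : ℝ) ^ M) ^ y ≤ S.card * (2 * C₀) := by
        have e1 : (S.card : ℝ) * (C₀ * (2 : ℝ) ^ (M + 2)) =
            (S.card * (2 * C₀)) * (2 : ℝ) ^ (M + 1) := by
          rw [pow_succ (2 : ℝ) (M + 1)]
          ring
        rw [e1] at h1
        exact le_of_mul_le_mul_right h1 (by positivity)
      calc c ^ 2 / (8 * C₀) * ((2 : ℝ) ^ (M + 2)) ^ y
          ≤ c ^ 2 / (8 * C₀) * (4 * ((2 : ℝ) ^ M) ^ y) :=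
            mul_le_mul_of_nonneg_left h4y (by positivity)
        _ = (c ^ 2 * ((2 : ℝ) ^ M) ^ y) / (2 * C₀) := by
            field_simp
            ring
        _ ≤ S.card := by
            rw [div_le_iff₀ (by positivity)]
            exact h2
    calc min (min (c / 4) (1 / 8)) (c ^ 2 / (8 * C₀)) * ((2 : ℝ) ^ (M + 2)) ^ y
        ≤ c ^ 2 / (8 * C₀) * ((2 : ℝ) ^ (M + 2)) ^ y :=
          mul_le_mul_of_nonneg_right (min_le_right _ _) (by positivity)
      _ ≤ S.card := hSc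
      _ ≤ T.ncard := by
          rw [← Set.ncard_coe_finset]
          exact_mod_cast Set.ncard_le_ncard hST hTf

end Pool.Agent.Helper5.FP.Np
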