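import Mathlib

/-!
The constants.
-/

set_option autoImplicit false

namespace Pool.Agent.Helper5.FP

open Finset Filter

theorem poly_le (k : ℕ) (r : ℝ) (hr : 1 < r) :
    ∃ M : ℝ, 0 < M ∧ ∀ n : ℕ, ((n : ℝ) + 1) ^ k ≤ M * r ^ n := by
  have h := tendsto_pow_const_div_const_pow_of_one_lt k hr
  obtain ⟨M, hM⟩ := h.bddAbove_range
  refine ⟨|M| * r + 1, by positivity, fun n => ?_⟩
  have h1 := hM ⟨n + 1, rfl⟩
  simp only at h1
  have hr0 : 0 < r := by linarith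
  rw [div_le_iff₀ (by positivity)] at h1
  push_cast at h1
  calc ((n : ℝ) + 1) ^ k ≤ M * r ^ (n + 1) := h1
    _ ≤ |M| * r ^ (n + 1) := mul_le_mul_of_nonneg_right (le_abs_self _) (by positivity)
    _ = |M| * r * r ^ n := by ring
    _ ≤ (|M| * r + 1) * r ^ n := mul_le_mul_of_nonneg_right (by linarith) (by positivity)

/-- the deviation of a piece -/
noncomputable def eta (ε : ℝ) (s₁ s₂ : ℕ) : ℝ := ε / (16 * (1 + (s₁ : ℝ)) ^ 2 * (1 + (s₂ : ℝ)) ^ 2)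

/-- the gap -/
def gap (s₁ s₂ : ℕ) : ℕ := max s₁ s₂ + 3

/-- the mass of a piece -/
noncomputable def mass (s₁ s₂ : ℕ) : ℝ := 9 * (2 : ℝ) ^ (-((s₁ : ℝ) + s₂) / 3)

theorem mass_pos (s₁ s₂ : ℕ) : 0 < mass s₁ s₂ := by unfold mass; positivity

theorem mass_cube (s₁ s₂ : ℕ) : mass s₁ s₂ ^ 3 * (2 ^ s₁ * 2 ^ s₂) = 729 := by
  unfold mass
  rw [mul_pow, ← Real.rpow_natCast ((2 : ℝ) ^ (-((s₁ : ℝ) + s₂) / 3)) 3,
    ← Real.rpow_mul (by norm_num), ← pow_add, ← Real.rpow_natCast (2 : ℝ) (s₁ + s₂), mul_assoc,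
    ← Real.rpow_add (by norm_num)]
  push_cast
  rw [show -((s₁ : ℝ) + s₂) / 3 * 3 + (s₁ + s₂) = 0 by ring, Real.rpow_zero]
  norm_num

theorem eta_pos {ε : ℝ} (hε : 0 < ε) (s₁ s₂ : ℕ) : 0 < eta ε s₁ s₂ := by
  unfold eta
  positivity

theorem eta_le_one {ε : ℝ} (hε : 0 < ε) (hε1 : ε ≤ 1) (s₁ s₂ : ℕ) : eta ε s₁ s₂ ≤ 1 := by
  unfold eta
  rw [div_le_one (by positivity)]
  have h1 : (1 : ℝ) ≤ (1 + (s₁ : ℝ)) ^ 2 := one_le_pow₀ (by linarith [Nat.cast_nonneg (α := ℝ) s₁])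
  have h2 : (1 : ℝ) ≤ (1 + (s₂ : ℝ)) ^ 2 := one_le_pow₀ (by linarith [Nat.cast_nonneg (α := ℝ) s₂])
  nlinarith [mul_le_mul h1 h2 zero_le_one (by positivity)]

theorem gap_le (s₁ s₂ : ℕ) : (gap s₁ s₂ : ℝ) ≤ 3 * ((1 + (s₁ : ℝ)) * (1 + s₂)) := by
  have h1 : gap s₁ s₂ ≤ 3 * ((1 + s₁) * (1 + s₂)) := by
    unfold gap
    rcases max_choice s₁ s₂ with h | h <;> rw [h] <;> nlinarith [Nat.zero_le (s₁ * s₂)]
  exact_mod_cast h1

theorem params : ∃ c T₀ : ℝ, 0 < c ∧ 0 < T₀ ∧ ∀ (ε : ℝ) (j : ℕ), 0 < ε → ε ≤ 1 →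
    (2 : ℝ) ^ j ≤ 64 / ε → ∀ s₁ s₂ : ℕ, s₁ ≤ 3 * j → s₂ ≤ 3 * j → ∀ K : ℝ, T₀ ≤ ε ^ 4 * K →
      (gap s₁ s₂ : ℝ) ≤ eta ε s₁ s₂ * K / 2 ∧
      c * ε ^ 4 * (1 + s₁ + s₂) * gap s₁ s₂ ≤
        min (eta ε s₁ s₂ ^ 2 / 32) (eta ε s₁ s₂ ^ 4 / (864 * mass s₁ s₂ ^ 3)) := by
  obtain ⟨M₁, hM₁, h₁⟩ := poly_le 6 8 (by norm_num)
  obtain ⟨M₂, hM₂, h₂⟩ := poly_le 12 4 (by norm_num)
  obtain ⟨M₃, hM₃, h₃⟩ := poly_le 10 2 (by norm_num)
  set c₁ : ℝ := 1 / (24576 * 3 ^ 12 * M₂ * 4096) with hc₁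
  set c₂ : ℝ := 1 / (65536 * 864 * 729 * 3 * M₃ ^ 2) with hc₂
  have hc₁0 : 0 < c₁ := by positivity
  have hc₂0 : 0 < c₂ := by positivity
  refine ⟨min c₁ c₂, 96 * 3 ^ 6 * M₁ * 64 ^ 3, lt_min hc₁0 hc₂0, by positivity,
    fun ε j hε hε1 hj s₁ s₂ hs₁ hs₂ K hK => ?_⟩
  set a : ℝ := 1 + (s₁ : ℝ) with ha
  set d : ℝ := 1 + (s₂ : ℝ) with hd
  have ha1 : 1 ≤ a := by rw [ha]; linarith [Nat.cast_nonneg (α := ℝ) s₁]
  have hd1 : 1 ≤ d := by rw [hd]; linarith [Nat.cast_nonneg (α := ℝ) s₂]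
  have hgap := gap_le s₁ s₂
  rw [← ha, ← hd] at hgap
  have hg0 : (0 : ℝ) ≤ gap s₁ s₂ := Nat.cast_nonneg _
  have hja : a ≤ 3 * ((j : ℝ) + 1) := by
    have : (s₁ : ℝ) ≤ 3 * j := by exact_mod_cast hs₁
    rw [ha]; linarith
  have hjd : d ≤ 3 * ((j : ℝ) + 1) := by
    have : (s₂ : ℝ) ≤ 3 * j := by exact_mod_cast hs₂
    rw [hd]; linarith
  have hj0 : (0 : ℝ) ≤ (j : ℝ) + 1 := by positivity
  have hsum : 1 + (s₁ : ℝ) + s₂ ≤ a * d := by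
    rw [ha, hd]
    nlinarith [mul_nonneg (Nat.cast_nonneg (α := ℝ) s₁) (Nat.cast_nonneg (α := ℝ) s₂)]
  have hεj : ε * 2 ^ j ≤ 64 := by
    rw [le_div_iff₀ hε] at hj
    linarith
  have hη : eta ε s₁ s₂ = ε / (16 * a ^ 2 * d ^ 2) := rfl
  have had : 0 < a * d := by positivity
  constructor
  · -- the gap
    have e1 : (a * d) ^ 3 * ε ^ 3 ≤ 3 ^ 6 * M₁ * 64 ^ 3 := by
      have e2 : (a * d) ^ 3 ≤ 3 ^ 6 * ((j : ℝ) + 1) ^ 6 := by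
        calc (a * d) ^ 3 ≤ ((3 * ((j : ℝ) + 1)) * (3 * ((j : ℝ) + 1))) ^ 3 := by gcongr
          _ = _ := by ring
      have e3 : ((2 : ℝ) ^ j * ε) ^ 3 ≤ 64 ^ 3 := by
        apply pow_le_pow_left₀ (by positivity)
        linarith
      have e4 : (8 : ℝ) ^ j = ((2 : ℝ) ^ j) ^ 3 := by
        rw [← pow_mul, mul_comm, pow_mul]
        norm_num
      calc (a * d) ^ 3 * ε ^ 3 ≤ (3 ^ 6 * (M₁ * 8 ^ j)) * ε ^ 3 := by
            gcongr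
            exact e2.trans (mul_le_mul_of_nonneg_left (h₁ j) (by positivity))
        _ = 3 ^ 6 * M₁ * ((2 : ℝ) ^ j * ε) ^ 3 := by rw [e4]; ring
        _ ≤ _ := mul_le_mul_of_nonneg_left e3 (by positivity)
    have e5 : 3 * (a * d) ≤ ε / (16 * a ^ 2 * d ^ 2) * K / 2 := by
      rw [div_mul_eq_mul_div, div_div, le_div_iff₀ (by positivity)]
      have e6 : 3 * (a * d) * (16 * a ^ 2 * d ^ 2 * 2) * ε ^ 3 ≤ ε * K * ε ^ 3 := by
        calc 3 * (a * d) * (16 * a ^ 2 * d ^ 2 * 2) * ε ^ 3 = 96 * ((a * d) ^ 3 * ε ^ 3) := by ring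
          _ ≤ 96 * (3 ^ 6 * M₁ * 64 ^ 3) := mul_le_mul_of_nonneg_left e1 (by norm_num)
          _ = 96 * 3 ^ 6 * M₁ * 64 ^ 3 := by ring
          _ ≤ ε ^ 4 * K := hK
          _ = ε * K * ε ^ 3 := by ring
      exact le_of_mul_le_mul_right e6 (by positivity)
    rw [hη]
    exact hgap.trans e5
  · have hlhs : min c₁ c₂ * ε ^ 4 * (1 + s₁ + s₂) * gap s₁ s₂ ≤
        min c₁ c₂ * ε ^ 4 * (a * d) * (3 * (a * d)) := by
      have : 0 ≤ min c₁ c₂ := (lt_min hc₁0 hc₂0).le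
      gcongr
    refine hlhs.trans (le_min ?_ ?_)
    · have e1 : (a * d) ^ 6 * ε ^ 2 ≤ 3 ^ 12 * M₂ * 4096 := by
        have e2 : (a * d) ^ 6 ≤ 3 ^ 12 * ((j : ℝ) + 1) ^ 12 := by
          calc (a * d) ^ 6 ≤ ((3 * ((j : ℝ) + 1)) * (3 * ((j : ℝ) + 1))) ^ 6 := by gcongr
            _ = _ := by ring
        have e3 : ((2 : ℝ) ^ j * ε) ^ 2 ≤ 64 ^ 2 := by
          apply pow_le_pow_left₀ (by positivity)
          linarith
        have e4 : (4 : ℝ) ^ j = ((2 : ℝ) ^ j) ^ 2 := by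
          rw [← pow_mul, mul_comm, pow_mul]
          norm_num
        calc (a * d) ^ 6 * ε ^ 2 ≤ (3 ^ 12 * (M₂ * 4 ^ j)) * ε ^ 2 := by
              gcongr
              exact e2.trans (mul_le_mul_of_nonneg_left (h₂ j) (by positivity))
          _ = 3 ^ 12 * M₂ * ((2 : ℝ) ^ j * ε) ^ 2 := by rw [e4]; ring
          _ ≤ 3 ^ 12 * M₂ * 64 ^ 2 := mul_le_mul_of_nonneg_left e3 (by positivity)
          _ = _ := by norm_num
      rw [hη, div_pow, div_div, le_div_iff₀ (by positivity)]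
      calc min c₁ c₂ * ε ^ 4 * (a * d) * (3 * (a * d)) * ((16 * a ^ 2 * d ^ 2) ^ 2 * 32)
          ≤ c₁ * ε ^ 4 * (a * d) * (3 * (a * d)) * ((16 * a ^ 2 * d ^ 2) ^ 2 * 32) := by
            gcongr
            exact min_le_left _ _
        _ = 24576 * c₁ * ((a * d) ^ 6 * ε ^ 2) * ε ^ 2 := by ring
        _ ≤ 24576 * c₁ * (3 ^ 12 * M₂ * 4096) * ε ^ 2 := by gcongr
        _ = ε ^ 2 := by
            rw [hc₁]
            field_simp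
    · have e1 : (a * d) ^ 10 ≤ M₃ ^ 2 * (2 ^ s₁ * 2 ^ s₂) := by
        have e2 := h₃ s₁
        have e3 := h₃ s₂
        rw [add_comm, ← ha] at e2
        rw [add_comm, ← hd] at e3
        calc (a * d) ^ 10 = a ^ 10 * d ^ 10 := by ring
          _ ≤ (M₃ * 2 ^ s₁) * (M₃ * 2 ^ s₂) := mul_le_mul e2 e3 (by positivity) (by positivity)
          _ = _ := by ring
      have hmc := mass_cube s₁ s₂
      have hmp := mass_pos s₁ s₂
      set m : ℝ := mass s₁ s₂ with hm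
      rw [hη, div_pow, div_div, le_div_iff₀ (by positivity)]
      calc min c₁ c₂ * ε ^ 4 * (a * d) * (3 * (a * d)) * ((16 * a ^ 2 * d ^ 2) ^ 4 * (864 * m ^ 3))
          ≤ c₂ * ε ^ 4 * (a * d) * (3 * (a * d)) *
            ((16 * a ^ 2 * d ^ 2) ^ 4 * (864 * m ^ 3)) := by
            gcongr
            exact min_le_right _ _
        _ = 65536 * 864 * 3 * c₂ * m ^ 3 * (a * d) ^ 10 * ε ^ 4 := by ring
        _ ≤ 65536 * 864 * 3 * c₂ * m ^ 3 * (M₃ ^ 2 * (2 ^ s₁ * 2 ^ s₂)) * ε ^ 4 := by gcongr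
        _ = 65536 * 864 * 3 * c₂ * M₃ ^ 2 * (m ^ 3 * (2 ^ s₁ * 2 ^ s₂)) * ε ^ 4 := by ring
        _ = ε ^ 4 := by
            rw [hmc, hc₂]
            field_simp

/-- the sum over the pieces -/
theorem sum_pieces (x : ℝ) (hx : 4 ≤ x) (S : ℕ) :
    ∑ s₁ ∈ range (S + 1), ∑ s₂ ∈ range (S + 1), (gap s₁ s₂ : ℝ) * Real.exp (-(x * (1 + s₁ + s₂))) ≤
      12 * Real.exp (-x) := by
  have h1 : ∀ s : ℕ, (1 + (s : ℝ)) * Real.exp (-(4 * s)) ≤ (1 / 2) ^ s := by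
    intro s
    have e1 : (1 : ℝ) + s ≤ 2 ^ s := by
      have := one_add_mul_le_pow (a := (1 : ℝ)) (by norm_num) s
      norm_num at this
      exact this
    have e2 : Real.exp (-(4 * (s : ℝ))) ≤ (1 / 4) ^ s := by
      have e3 : Real.exp (-(4 * (s : ℝ))) = (Real.exp (-4)) ^ s := by
        rw [← Real.exp_nat_mul]
        congr 1
        ring
      rw [e3]
      apply pow_le_pow_left₀ (Real.exp_pos _).le
      rw [Real.exp_neg, one_div]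
      apply inv_anti₀ (by norm_num)
      have := Real.add_one_le_exp (4 : ℝ)
      linarith
    calc (1 + (s : ℝ)) * Real.exp (-(4 * s)) ≤ 2 ^ s * (1 / 4) ^ s :=
          mul_le_mul e1 e2 (Real.exp_pos _).le (by positivity)
      _ = (1 / 2) ^ s := by rw [← mul_pow]; norm_num
  have h2 : ∀ s₁ s₂ : ℕ, (gap s₁ s₂ : ℝ) * Real.exp (-(x * (1 + s₁ + s₂))) ≤
      3 * Real.exp (-x) * ((1 / 2) ^ s₁ * (1 / 2) ^ s₂) := by
    intro s₁ s₂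
    have e1 := gap_le s₁ s₂
    have e2 : Real.exp (-(x * (1 + s₁ + s₂))) ≤
        Real.exp (-x) * (Real.exp (-(4 * s₁)) * Real.exp (-(4 * s₂))) := by
      rw [← Real.exp_add, ← Real.exp_add]
      apply Real.exp_le_exp.2
      nlinarith [mul_nonneg (by linarith : (0 : ℝ) ≤ x - 4)
        (by positivity : (0 : ℝ) ≤ (s₁ : ℝ) + s₂)]
    calc (gap s₁ s₂ : ℝ) * Real.exp (-(x * (1 + s₁ + s₂)))
        ≤ (3 * ((1 + (s₁ : ℝ)) * (1 + s₂))) *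
          (Real.exp (-x) * (Real.exp (-(4 * s₁)) * Real.exp (-(4 * s₂)))) :=
          mul_le_mul e1 e2 (Real.exp_pos _).le (by positivity)
      _ = 3 * Real.exp (-x) * (((1 + (s₁ : ℝ)) * Real.exp (-(4 * s₁))) *
          ((1 + (s₂ : ℝ)) * Real.exp (-(4 * s₂)))) := by ring
      _ ≤ _ := by
          have e3 := h1 s₁
          have e4 := h1 s₂
          gcongr
  have h3 : ∑ s ∈ range (S + 1), ((1 : ℝ) / 2) ^ s ≤ 2 := by
    have := geom_sum_eq (x := (1 : ℝ) / 2) (by norm_num) (S + 1)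
    rw [this]
    have e : (0 : ℝ) < (1 / 2) ^ (S + 1) := by positivity
    rw [div_le_iff_of_neg (by norm_num)]
    linarith
  have h30 : 0 ≤ ∑ s ∈ range (S + 1), ((1 : ℝ) / 2) ^ s := sum_nonneg fun s _ => by positivity
  calc ∑ s₁ ∈ range (S + 1), ∑ s₂ ∈ range (S + 1),
        (gap s₁ s₂ : ℝ) * Real.exp (-(x * (1 + s₁ + s₂)))
      ≤ ∑ s₁ ∈ range (S + 1), ∑ s₂ ∈ range (S + 1),
        3 * Real.exp (-x) * (((1 : ℝ) / 2) ^ s₁ * (1 / 2) ^ s₂) :=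
        sum_le_sum fun s₁ _ => sum_le_sum fun s₂ _ => h2 s₁ s₂
    _ = 3 * Real.exp (-x) * ((∑ s ∈ range (S + 1), ((1 : ℝ) / 2) ^ s) *
        ∑ s ∈ range (S + 1), ((1 : ℝ) / 2) ^ s) := by
        rw [sum_mul_sum, mul_sum]
        refine sum_congr rfl fun s _ => ?_
        rw [mul_sum]
    _ ≤ 3 * Real.exp (-x) * (2 * 2) := by gcongr
    _ = _ := by ring

end Pool.Agent.Helper5.FP
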