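import Pool.Agent.Helper5.FP.Par
import Pool.Agent.Helper5.FP.Num
import Pool.Agent.Helper99.FP.Maj

/-!
The assembly: fourth power tails for products of arcs, from the Riesz products and the Fejer pieces.
-/

set_option autoImplicit false

namespace Pool.Agent.Helper5.FP

open Finset
open Pool.Agent.Helper16.NM (r)
open Pool.Agent.Helper7.SC (e)

/-- the indicator of an arc -/
noncomputable def ind (u len y : ℝ) : ℝ := if Int.fract (y - u) < len then 1 else 0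

theorem ind_nonneg (u len y : ℝ) : 0 ≤ ind u len y := by unfold ind; split_ifs <;> norm_num

theorem ind_le_one (u len y : ℝ) : ind u len y ≤ 1 := by unfold ind; split_ifs <;> norm_num

/-- the pieces, with the constant one -/
noncomputable def TT (T : ℕ → ℤ → ℂ) (s : ℕ) (h : ℤ) : ℂ :=
  if s = 0 then (if h = 0 then 1 else 0) else T s h

/-- the pieces as functions, with the constant one -/
noncomputable def tt (t : ℕ → ℝ → ℝ) (s : ℕ) (y : ℝ) : ℝ := if s = 0 then 1 else t s y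

/-- the weights of the pieces -/
noncomputable def ww (μ : ℝ) (s : ℕ) : ℝ := if s = 0 then μ else 1

theorem tt_eq {T : ℕ → ℤ → ℂ} {t : ℕ → ℝ → ℝ}
    (h0 : ∀ s h, (2 : ℤ) ^ s ≤ |h| → T s h = 0)
    (ht : ∀ s y, (t s y : ℂ) = ∑ h ∈ Icc (-(2 : ℤ) ^ s) (2 ^ s), T s h * e (h * y))
    (s D : ℕ) (hD : 2 ^ s ≤ D) (y : ℝ) :
    (tt t s y : ℂ) = ∑ h ∈ Icc (-(D : ℤ)) D, TT T s h * e (h * y) := by
  unfold tt TT
  by_cases hs : s = 0
  · subst hs
    simp only [if_true]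
    rw [Finset.sum_eq_single_of_mem 0]
    · simp [e]
    · rw [mem_Icc]
      have : (0 : ℤ) ≤ D := by positivity
      omega
    · intro h _ hne
      rw [if_neg hne, zero_mul]
  · simp only [if_neg hs]
    rw [ht s y]
    apply Finset.sum_subset
    · intro h hh
      rw [mem_Icc] at hh ⊢
      have : ((2 : ℤ) ^ s) ≤ D := by exact_mod_cast hD
      omega
    · intro h _ hh
      rw [h0 s h, zero_mul]
      by_contra hcon
      apply hh
      rw [mem_Icc]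
      rw [not_le, abs_lt] at hcon
      omega

theorem TT_zero {T : ℕ → ℤ → ℂ} (hT : ∀ s, T s 0 = 0) {s : ℕ} (hs : s ≠ 0) : TT T s 0 = 0 := by
  unfold TT
  rw [if_neg hs, hT]

theorem TT_supp {T : ℕ → ℤ → ℂ} (h0 : ∀ s h, (2 : ℤ) ^ s ≤ |h| → T s h = 0) {s D : ℕ}
    (hD : 2 ^ s ≤ D) {h : ℤ} (hh : (D : ℤ) < |h|) : TT T s h = 0 := by
  unfold TT
  split_ifs with hs h1
  · subst h1
    simp at hh
    omega
  · rfl
  · apply h0
    have : ((2 : ℤ) ^ s) ≤ D := by exact_mod_cast hD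
    omega

theorem TT_mass {T : ℕ → ℤ → ℂ} (h0 : ∀ s h, (2 : ℤ) ^ s ≤ |h| → T s h = 0) {S : ℕ}
    (hT : ∀ s, 1 ≤ s → s ≤ S → ∀ h, ‖T s h‖ ≤ 1 / 2 ^ s) {s D : ℕ} (hs : s ≤ S)
    (hD : 2 ^ s ≤ D) :
    ∑ h ∈ Icc (-(D : ℤ)) D, ‖TT T s h‖ ^ (4 / 3 : ℝ) ≤ 3 * (2 : ℝ) ^ (-(s : ℝ) / 3) := by
  by_cases h1 : s = 0
  · subst h1
    rw [Finset.sum_eq_single_of_mem 0]
    · simp [TT]
    · rw [mem_Icc]
      have : (0 : ℤ) ≤ D := by positivity
      omega
    · intro h _ hne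
      unfold TT
      rw [if_pos rfl, if_neg hne, norm_zero, Real.zero_rpow (by norm_num)]
  · have e1 : ∑ h ∈ Icc (-(D : ℤ)) D, ‖TT T s h‖ ^ (4 / 3 : ℝ) =
        ∑ h ∈ Icc (-(2 : ℤ) ^ s) (2 ^ s), ‖T s h‖ ^ (4 / 3 : ℝ) := by
      symm
      have e2 : ∀ h, ‖TT T s h‖ = ‖T s h‖ := fun h => by unfold TT; rw [if_neg h1]
      simp only [e2]
      apply Finset.sum_subset
      · intro h hh
        rw [mem_Icc] at hh ⊢
        have : ((2 : ℤ) ^ s) ≤ D := by exact_mod_cast hD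
        omega
      · intro h _ hh
        rw [h0 s h, norm_zero, Real.zero_rpow (by norm_num)]
        by_contra hcon
        apply hh
        rw [mem_Icc]
        rw [not_le, abs_lt] at hcon
        omega
    rw [e1]
    have e3 : ∀ h ∈ Icc (-(2 : ℤ) ^ s) (2 ^ s), ‖T s h‖ ^ (4 / 3 : ℝ) ≤
        ((1 : ℝ) / 2 ^ s) ^ (4 / 3 : ℝ) := fun h _ =>
      Real.rpow_le_rpow (norm_nonneg _) (hT s (by omega) hs h) (by norm_num)
    refine (sum_le_sum e3).trans ?_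
    rw [sum_const, nsmul_eq_mul, Int.card_Icc]
    have e4 : (((2 : ℤ) ^ s + 1 - -(2 : ℤ) ^ s).toNat : ℝ) ≤ 3 * (2 : ℝ) ^ s := by
      have e5 : ((2 : ℤ) ^ s + 1 - -(2 : ℤ) ^ s).toNat = 2 * 2 ^ s + 1 := by
        have : (2 : ℤ) ^ s + 1 - -(2 : ℤ) ^ s = ((2 * 2 ^ s + 1 : ℕ) : ℤ) := by push_cast; ring
        rw [this, Int.toNat_natCast]
      rw [e5]
      push_cast
      have : (1 : ℝ) ≤ 2 ^ s := one_le_pow₀ (by norm_num)
      linarith
    refine (mul_le_mul_of_nonneg_right e4 (by positivity)).trans (le_of_eq ?_)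
    rw [one_div, ← Real.rpow_natCast 2 s, ← Real.rpow_neg (by norm_num),
      ← Real.rpow_mul (by norm_num), mul_assoc, ← Real.rpow_add (by norm_num)]
    congr 2
    ring

theorem tt_le {t : ℕ → ℝ → ℝ} {S : ℕ} (ht : ∀ s ≤ S, ∀ y, |t s y| ≤ 1) {s : ℕ} (hs : s ≤ S)
    (y : ℝ) : |tt t s y| ≤ 1 := by
  unfold tt
  split_ifs
  · simp
  · exact ht s hs y

theorem sum_ww {μ : ℝ} {t : ℕ → ℝ → ℝ} (S : ℕ) (y : ℝ) :
    μ + ∑ s ∈ Icc 1 S, t s y = ∑ s ∈ range (S + 1), ww μ s * tt t s y := by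
  rw [Finset.sum_range_succ', add_comm]
  congr 1
  · have : Icc 1 S = (range S).map ⟨fun s => s + 1, fun a b h => by simpa using h⟩ := by
      ext s
      simp only [mem_Icc, mem_map, mem_range, Function.Embedding.coeFn_mk]
      constructor
      · intro h
        exact ⟨s - 1, by omega, by omega⟩
      · rintro ⟨i, h1, h2⟩
        omega
    rw [this, sum_map]
    refine sum_congr rfl fun s _ => ?_
    simp [ww, tt]
  · simp [ww, tt]

theorem sum_inv_sq (S : ℕ) : ∑ s ∈ range (S + 1), 1 / (1 + (s : ℝ)) ^ 2 ≤ 2 := by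
  have h : ∀ S : ℕ, ∑ s ∈ range (S + 1), 1 / (1 + (s : ℝ)) ^ 2 ≤ 2 - 1 / ((S : ℝ) + 1) := by
    intro S
    induction S with
    | zero => norm_num
    | succ S ih =>
      rw [Finset.sum_range_succ]
      have e1 : (0 : ℝ) < (S : ℝ) + 1 := by positivity
      have e2 : 1 / (1 + ((S + 1 : ℕ) : ℝ)) ^ 2 ≤ 1 / ((S : ℝ) + 1) - 1 / (((S + 1 : ℕ) : ℝ) + 1) := by
        push_cast
        rw [div_sub_div _ _ (by positivity) (by positivity), div_le_div_iff₀ (by positivity)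
          (by positivity)]
        nlinarith
      linarith
  have h1 := h S
  have : (0 : ℝ) ≤ 1 / ((S : ℝ) + 1) := by positivity
  linarith

theorem card_le_Lam {b l K : ℕ} (hb : 2 ≤ b) {B : Finset ℕ} {P : Finset (ℕ × ℕ)}
    (hB : B ⊆ range (b ^ K)) (hP : P ⊆ B ×ˢ B) : (#P : ℝ) ≤ Lam b l K B := by
  have hb0 : 0 < b := by omega
  have h := Pool.Agent.Helper5.TQ.card_le2 (N := b ^ K) (by positivity) hB hP
  push_cast at h
  have h1 : (#P : ℝ) ^ 4 ≤ 8 * ((b : ℝ) ^ (K + l)) ^ 2 *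
      (∑ n ∈ range (2 * b ^ K), (r B n : ℝ) ^ 2) ^ 2 := by
    refine h.trans ?_
    have e1 : (4 * (b : ℝ) ^ K) * (2 * (b : ℝ) ^ K) ≤ 8 * ((b : ℝ) ^ (K + l)) ^ 2 := by
      have e2 : (b : ℝ) ^ K ≤ (b : ℝ) ^ (K + l) :=
        pow_le_pow_right₀ (by exact_mod_cast (by omega : 1 ≤ b)) (by omega)
      have e3 : (0 : ℝ) < (b : ℝ) ^ K := by positivity
      nlinarith [mul_le_mul e2 e2 e3.le (by positivity)]
    exact mul_le_mul_of_nonneg_right e1 (by positivity)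
  unfold Lam
  have h2 : ((#P : ℝ) ^ 4) ^ (1 / 4 : ℝ) = #P := by
    rw [← Real.rpow_natCast, ← Real.rpow_mul (Nat.cast_nonneg _)]
    norm_num
  rw [← h2]
  exact Real.rpow_le_rpow (by positivity) h1 (by norm_num)

theorem e_add' (x y : ℝ) : e (x + y) = e x * e y := by
  unfold e
  rw [← Complex.exp_add]
  congr 1
  push_cast
  ring

/-- FOURTH POWER TAILS for upper deviations of products of arcs -/
theorem tail_arc {b l : ℕ} (hb : 2 ≤ b) (hRB : RB b l) : ∃ c C : ℝ, 0 < c ∧ 0 < C ∧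
    ∀ (u len u' len' : ℝ), 0 ≤ len → len ≤ 1 → 0 ≤ len' → len' ≤ 1 →
    ∀ (K : ℕ) (B : Finset ℕ) (P : Finset (ℕ × ℕ)), B ⊆ range (b ^ K) → P ⊆ B ×ˢ B →
    ∀ ε : ℝ, 0 < ε → ε ≤ 1 →
    (∀ p ∈ P, (len * len' + ε) * K ≤ ∑ i ∈ range K,
      ind u len (((p.1 : ℝ) + p.2) / (b : ℝ) ^ (i + l)) *
        ind u' len' ((p.1 : ℝ) / (b : ℝ) ^ (i + l))) →
    (#P : ℝ) ≤ C * Real.exp (-(c * (ε ^ 4 * K))) * Lam b l K B := by
  classical
  obtain ⟨c₀, T₀, hc₀, hT₀, hpar⟩ := params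
  set T₁ : ℝ := max T₀ (4 / c₀) with hT₁
  refine ⟨c₀, max 12 (Real.exp (c₀ * T₁)), hc₀, by positivity,
    fun u len u' len' hl0 hl1 hl0' hl1' K B P hB hP ε hε hε1 hdev => ?_⟩
  have hL := Lam_nonneg b l K B
  by_cases hbig : ε ^ 4 * K < T₁
  · -- trivial
    have h1 := card_le_Lam (l := l) hb hB hP
    have h2 : 1 ≤ max 12 (Real.exp (c₀ * T₁)) * Real.exp (-(c₀ * (ε ^ 4 * K))) := by
      calc (1 : ℝ) = Real.exp (c₀ * T₁) * Real.exp (-(c₀ * T₁)) := by
            rw [← Real.exp_add, add_neg_cancel, Real.exp_zero]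
        _ ≤ max 12 (Real.exp (c₀ * T₁)) * Real.exp (-(c₀ * (ε ^ 4 * K))) := by
            apply mul_le_mul (le_max_right _ _) _ (Real.exp_pos _).le (by positivity)
            apply Real.exp_le_exp.2
            nlinarith
    calc (#P : ℝ) ≤ 1 * Lam b l K B := by rwa [one_mul]
      _ ≤ _ := mul_le_mul_of_nonneg_right h2 hL
  rw [not_lt] at hbig
  have hT0K : T₀ ≤ ε ^ 4 * K := (le_max_left _ _).trans hbig
  have hx4 : 4 ≤ c₀ * (ε ^ 4 * K) := by
    have := (le_max_right _ _).trans hbig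
    rw [div_le_iff₀ hc₀] at this
    linarith
  have hK0 : (0 : ℝ) < K := by
    have h1 : 0 < ε ^ 4 * K := lt_of_lt_of_le hT₀ hT0K
    by_contra hcon
    have h2 : ε ^ 4 * (K : ℝ) ≤ 0 :=
      mul_nonpos_of_nonneg_of_nonpos (by positivity) (not_lt.1 hcon)
    linarith
  -- the number of pieces
  obtain ⟨n, hn1, hn2⟩ := exists_nat_pow_near (x := 32 / ε) (y := (2 : ℝ))
    (by rw [le_div_iff₀ hε]; linarith) (by norm_num)
  set j : ℕ := n + 1 with hj
  have hj1 : (2 : ℝ) ^ j ≤ 64 / ε := by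
    rw [hj, pow_succ]
    have : 64 / ε = 32 / ε * 2 := by ring
    rw [this]
    exact mul_le_mul_of_nonneg_right hn1 (by norm_num)
  have hη0 : (1 / 2 : ℝ) ^ j ≤ ε / 32 := by
    rw [div_pow, one_pow, div_le_div_iff₀ (by positivity) (by norm_num)]
    rw [div_lt_iff₀ hε] at hn2
    linarith
  have hη0' : (0 : ℝ) < (1 / 2 : ℝ) ^ j := by positivity
  have hS : 1 / (4 * (2 : ℝ) ^ (3 * j) * ((1 / 2 : ℝ) ^ j) ^ 2) = (1 / 2) ^ j / 4 := by
    rw [pow_mul', ← pow_mul (1 / 2 : ℝ) j 2, pow_mul' (1 / 2 : ℝ) j 2]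
    have e1 : ((2 : ℝ) ^ j) ^ 3 * ((1 / 2 : ℝ) ^ 2) ^ j = 2 ^ j := by
      rw [← pow_mul, mul_comm j 3, pow_mul, ← mul_pow]
      norm_num
    rw [mul_assoc, e1, div_pow, one_pow]
    field_simp
  obtain ⟨μ, T, t, hμ1, hμ2, hT0, -, hTs, hTb, htT, htb, hmaj⟩ :=
    Pool.Agent.Helper99.FP.major u len hl0 hl1 (3 * j) ((1 / 2) ^ j) hη0'
  obtain ⟨μ', T', t', hμ1', hμ2', hT0', -, hTs', hTb', htT', htb', hmaj'⟩ :=
    Pool.Agent.Helper99.FP.major u' len' hl0' hl1' (3 * j) ((1 / 2) ^ j) hη0'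
  rw [hS] at hμ2 hμ2'
  have hμ3 : μ ≤ len + ε / 8 := by linarith
  have hμ3' : μ' ≤ len' + ε / 8 := by linarith
  set S : ℕ := 3 * j with hSdef
  set X : ℕ → ℕ → ℕ × ℕ → ℝ := fun s₁ s₂ p => ∑ i ∈ range K,
    tt t s₁ (((p.1 : ℝ) + p.2) / (b : ℝ) ^ (i + l)) * tt t' s₂ ((p.1 : ℝ) / (b : ℝ) ^ (i + l))
    with hX
  set I2 : Finset (ℕ × ℕ) := (range (S + 1) ×ˢ range (S + 1)).erase (0, 0) with hI2
  have hww0 : ∀ s, 0 ≤ ww μ s := fun s => by unfold ww; split_ifs <;> linarith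
  have hww0' : ∀ s, 0 ≤ ww μ' s := fun s => by unfold ww; split_ifs <;> linarith
  have hww1 : ∀ s, ww μ s ≤ 9 / 8 := fun s => by unfold ww; split_ifs <;> linarith
  have hww1' : ∀ s, ww μ' s ≤ 9 / 8 := fun s => by unfold ww; split_ifs <;> linarith
  -- every pair has a large piece
  have hcover : P ⊆ I2.biUnion fun s => P.filter fun p => eta ε s.1 s.2 * K ≤ X s.1 s.2 p := by
    intro p hp
    rw [mem_biUnion]
    by_contra hcon
    push Not at hcon
    have h1 : ∀ s ∈ I2, X s.1 s.2 p ≤ eta ε s.1 s.2 * K := by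
      intro s hs
      by_contra h2
      exact hcon s hs (mem_filter.2 ⟨hp, (not_le.1 h2).le⟩)
    have h2 : ∑ i ∈ range K, ind u len (((p.1 : ℝ) + p.2) / (b : ℝ) ^ (i + l)) *
        ind u' len' ((p.1 : ℝ) / (b : ℝ) ^ (i + l)) ≤
        ∑ s ∈ range (S + 1) ×ˢ range (S + 1), ww μ s.1 * ww μ' s.2 * X s.1 s.2 p := by
      have e1 : ∀ i ∈ range K, ind u len (((p.1 : ℝ) + p.2) / (b : ℝ) ^ (i + l)) *
          ind u' len' ((p.1 : ℝ) / (b : ℝ) ^ (i + l)) ≤
          ∑ s ∈ range (S + 1) ×ˢ range (S + 1), ww μ s.1 * ww μ' s.2 *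
            (tt t s.1 (((p.1 : ℝ) + p.2) / (b : ℝ) ^ (i + l)) *
              tt t' s.2 ((p.1 : ℝ) / (b : ℝ) ^ (i + l))) := by
        intro i _
        have e2 := hmaj (((p.1 : ℝ) + p.2) / (b : ℝ) ^ (i + l))
        have e3 := hmaj' ((p.1 : ℝ) / (b : ℝ) ^ (i + l))
        rw [sum_ww] at e2 e3
        have e4 := mul_le_mul e2 e3 (ind_nonneg _ _ _) ((ind_nonneg _ _ _).trans e2)
        refine e4.trans (le_of_eq ?_)
        rw [sum_mul_sum, sum_product]
        refine sum_congr rfl fun s _ => sum_congr rfl fun s' _ => ?_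
        ring
      refine (sum_le_sum e1).trans (le_of_eq ?_)
      rw [sum_comm]
      refine sum_congr rfl fun s _ => ?_
      rw [← mul_sum]
    have h00 : ((0 : ℕ), (0 : ℕ)) ∈ range (S + 1) ×ˢ range (S + 1) := by
      rw [mem_product, mem_range]
      exact ⟨by simp, by simp⟩
    rw [← add_sum_erase _ _ h00, ← hI2] at h2
    have h3 : ww μ 0 * ww μ' 0 * X 0 0 p = μ * μ' * K := by
      simp [ww, tt, hX]
    have h4 : ∑ s ∈ I2, ww μ s.1 * ww μ' s.2 * X s.1 s.2 p ≤ ε * K / 2 := by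
      have e1 : ∀ s ∈ I2, ww μ s.1 * ww μ' s.2 * X s.1 s.2 p ≤ 2 * (eta ε s.1 s.2 * K) := by
        intro s hs
        have e2 : 0 ≤ ww μ s.1 * ww μ' s.2 := mul_nonneg (hww0 _) (hww0' _)
        have e3 : ww μ s.1 * ww μ' s.2 ≤ 2 := by
          calc ww μ s.1 * ww μ' s.2 ≤ 9 / 8 * (9 / 8) :=
                mul_le_mul (hww1 _) (hww1' _) (hww0' _) (by norm_num)
            _ ≤ 2 := by norm_num
        have e4 : 0 ≤ eta ε s.1 s.2 * K := mul_nonneg (eta_pos hε _ _).le hK0.le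
        calc ww μ s.1 * ww μ' s.2 * X s.1 s.2 p ≤ ww μ s.1 * ww μ' s.2 * (eta ε s.1 s.2 * K) :=
              mul_le_mul_of_nonneg_left (h1 s hs) e2
          _ ≤ _ := mul_le_mul_of_nonneg_right e3 e4
      refine (sum_le_sum e1).trans ?_
      have e5 : ∑ s ∈ I2, 2 * (eta ε s.1 s.2 * K) ≤
          ∑ s ∈ range (S + 1) ×ˢ range (S + 1), 2 * (eta ε s.1 s.2 * K) :=
        sum_le_sum_of_subset_of_nonneg (erase_subset _ _) fun s _ _ =>
          mul_nonneg (by norm_num) (mul_nonneg (eta_pos hε _ _).le hK0.le)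
      refine e5.trans ?_
      have e6 : ∑ s ∈ range (S + 1) ×ˢ range (S + 1), 2 * (eta ε s.1 s.2 * K) =
          ε * K / 8 * ((∑ s ∈ range (S + 1), 1 / (1 + (s : ℝ)) ^ 2) *
            ∑ s ∈ range (S + 1), 1 / (1 + (s : ℝ)) ^ 2) := by
        rw [sum_mul_sum, sum_product, mul_sum]
        refine sum_congr rfl fun s _ => ?_
        rw [mul_sum]
        refine sum_congr rfl fun s' _ => ?_
        unfold eta
        field_simp
        ring
      rw [e6]
      have e7 := sum_inv_sq S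
      have e8 : 0 ≤ ∑ s ∈ range (S + 1), 1 / (1 + (s : ℝ)) ^ 2 :=
        sum_nonneg fun s _ => by positivity
      calc _ ≤ ε * K / 8 * (2 * 2) := by gcongr
        _ = ε * K / 2 := by ring
    have h5 : μ * μ' ≤ len * len' + 3 * ε / 8 := by
      have e1 : μ * μ' ≤ (len + ε / 8) * (len' + ε / 8) :=
        mul_le_mul hμ3 hμ3' (hl0'.trans hμ1') (by positivity)
      nlinarith
    have h6 := hdev p hp
    rw [h3] at h2
    have h7 : μ * μ' * K ≤ (len * len' + 3 * ε / 8) * K := mul_le_mul_of_nonneg_right h5 hK0.le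
    nlinarith [mul_pos hε hK0]
  -- each piece
  have hpiece : ∀ s ∈ I2, (#(P.filter fun p => eta ε s.1 s.2 * K ≤ X s.1 s.2 p) : ℝ) ≤
      gap s.1 s.2 * Real.exp (-(c₀ * (ε ^ 4 * K) * (1 + s.1 + s.2))) * Lam b l K B := by
    rintro ⟨s₁, s₂⟩ hs
    rw [hI2, mem_erase, mem_product, mem_range, mem_range] at hs
    obtain ⟨hne, hs₁, hs₂⟩ := hs
    dsimp only at hs₁ hs₂ ⊢
    have hs₁' : s₁ ≤ S := by omega
    have hs₂' : s₂ ≤ S := by omega
    obtain ⟨hp1, hp2⟩ := hpar ε j hε hε1 hj1 s₁ s₂ hs₁' hs₂' K hT0K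
    set D : ℕ := 2 ^ max s₁ s₂ with hD
    have hD1 : 2 ^ s₁ ≤ D := Nat.pow_le_pow_right (by norm_num) (le_max_left _ _)
    have hD2 : 2 ^ s₂ ≤ D := Nat.pow_le_pow_right (by norm_num) (le_max_right _ _)
    have hgap1 : 1 ≤ gap s₁ s₂ := by unfold gap; omega
    have hDb : 4 * D < b ^ gap s₁ s₂ := by
      calc 4 * D < 8 * D := by
            have : 0 < D := by positivity
            omega
        _ = 2 ^ gap s₁ s₂ := by rw [hD, gap, pow_add]; ring
        _ ≤ b ^ gap s₁ s₂ := Nat.pow_le_pow_left hb _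
    have hmain := one_piece (b := b) (l := l) hRB (D := D) (q := gap s₁ s₂)
      (T := fun h h' => TT T s₁ h * TT T' s₂ h') (f := fun y y' => tt t s₁ y * tt t' s₂ y')
      (W := mass s₁ s₂) (η := eta ε s₁ s₂) hgap1 hDb
      (by
        by_cases h1 : s₁ = 0
        · have h2 : s₂ ≠ 0 := fun h2 => hne (by rw [h1, h2])
          rw [TT_zero hT0' h2, mul_zero]
        · rw [TT_zero hT0 h1, zero_mul])
      (by
        intro h h' hh
        rcases hh with hh | hh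
        · rw [TT_supp hTs hD1 hh, zero_mul]
        · rw [TT_supp hTs' hD2 hh, mul_zero])
      (by
        intro y y'
        rw [Complex.ofReal_mul, tt_eq hTs htT s₁ D hD1 y, tt_eq hTs' htT' s₂ D hD2 y',
          sum_mul_sum]
        refine sum_congr rfl fun h _ => sum_congr rfl fun h' _ => ?_
        rw [e_add']
        ring)
      (by
        intro y y'
        rw [abs_mul]
        exact mul_le_one₀ (tt_le htb hs₁' y) (abs_nonneg _) (tt_le htb' hs₂' y'))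
      (mass_pos _ _)
      (by
        have e1 : ∑ h ∈ Icc (-(D : ℤ)) D, ∑ h' ∈ Icc (-(D : ℤ)) D,
            ‖TT T s₁ h * TT T' s₂ h'‖ ^ (4 / 3 : ℝ) =
            (∑ h ∈ Icc (-(D : ℤ)) D, ‖TT T s₁ h‖ ^ (4 / 3 : ℝ)) *
              ∑ h' ∈ Icc (-(D : ℤ)) D, ‖TT T' s₂ h'‖ ^ (4 / 3 : ℝ) := by
          rw [sum_mul_sum]
          refine sum_congr rfl fun h _ => sum_congr rfl fun h' _ => ?_
          rw [norm_mul, Real.mul_rpow (norm_nonneg _) (norm_nonneg _)]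
        rw [e1]
        have e2 := TT_mass hTs hTb hs₁' hD1
        have e3 := TT_mass hTs' hTb' hs₂' hD2
        refine (mul_le_mul e2 e3 (sum_nonneg fun h _ => by positivity) (by positivity)).trans
          (le_of_eq ?_)
        unfold mass
        rw [show -((s₁ : ℝ) + s₂) / 3 = -(s₁ : ℝ) / 3 + -(s₂ : ℝ) / 3 by ring,
          Real.rpow_add (by norm_num)]
        ring)
      (eta_pos hε _ _) (eta_le_one hε hε1 _ _) (K := K) (B := B)
      (P := P.filter fun p => eta ε s₁ s₂ * K ≤ X s₁ s₂ p) hB ((filter_subset _ _).trans hP) hp1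
      (fun p hp => (mem_filter.1 hp).2)
    refine hmain.trans (mul_le_mul_of_nonneg_right (mul_le_mul_of_nonneg_left
      (Real.exp_le_exp.2 (neg_le_neg ?_)) (Nat.cast_nonneg _)) hL)
    have hg : (0 : ℝ) < gap s₁ s₂ := by exact_mod_cast hgap1
    calc c₀ * (ε ^ 4 * K) * (1 + s₁ + s₂) =
          K / gap s₁ s₂ * (c₀ * ε ^ 4 * (1 + s₁ + s₂) * gap s₁ s₂) := by field_simp
      _ ≤ _ := mul_le_mul_of_nonneg_left hp2 (by positivity)
  -- the sum
  calc (#P : ℝ) ≤ ∑ s ∈ I2, (#(P.filter fun p => eta ε s.1 s.2 * K ≤ X s.1 s.2 p) : ℝ) := by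
        exact_mod_cast (card_le_card hcover).trans card_biUnion_le
    _ ≤ ∑ s ∈ I2, gap s.1 s.2 * Real.exp (-(c₀ * (ε ^ 4 * K) * (1 + s.1 + s.2))) *
          Lam b l K B := sum_le_sum hpiece
    _ ≤ ∑ s ∈ range (S + 1) ×ˢ range (S + 1),
          gap s.1 s.2 * Real.exp (-(c₀ * (ε ^ 4 * K) * (1 + s.1 + s.2))) * Lam b l K B :=
        sum_le_sum_of_subset_of_nonneg (erase_subset _ _) fun s _ _ => by positivity
    _ = (∑ s₁ ∈ range (S + 1), ∑ s₂ ∈ range (S + 1), (gap s₁ s₂ : ℝ) *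
          Real.exp (-(c₀ * (ε ^ 4 * K) * (1 + s₁ + s₂)))) * Lam b l K B := by
        rw [sum_product, sum_mul]
        refine sum_congr rfl fun s _ => ?_
        rw [sum_mul]
    _ ≤ 12 * Real.exp (-(c₀ * (ε ^ 4 * K))) * Lam b l K B :=
        mul_le_mul_of_nonneg_right (sum_pieces _ hx4 S) hL
    _ ≤ max 12 (Real.exp (c₀ * T₁)) * Real.exp (-(c₀ * (ε ^ 4 * K))) * Lam b l K B := by
        have : (12 : ℝ) ≤ max 12 (Real.exp (c₀ * T₁)) := le_max_left _ _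
        gcongr

end Pool.Agent.Helper5.FP
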