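import Pool.Agent.Helper5.FP.Text
import Pool.Agent.Helper18.FP.Carry

/-!
# Digits and the mean square of the representation function: exceptional sets
-/

set_option autoImplicit false

namespace Pool.Agent.Helper5.FP.Cand

open Pool.Agent.Helper5.FP.Text Filter

/-- The number of places `i < K` at which the addition of `a` and `a'` in base `b` has a carry to
the next place. -/
noncomputable def carries (b K a a' : ℕ) : ℕ :=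
  {i | i < K ∧ b ^ (i + 1) ≤ a % b ^ (i + 1) + a' % b ^ (i + 1)}.ncard

/-- Every block of `l` digits in base `b` occurs in `a`, at the places below `K`, as often as
expected, up to `δ K`. -/
def Normal (b l : ℕ) (δ : ℝ) (K a : ℕ) : Prop :=
  ∀ v < b ^ l, |(blocks b l v K a : ℝ) - K / (b : ℝ) ^ l| < δ * K

/-- Every pair of blocks of `l` digits in base `b` occurs in `(n, a)`, at the same places below
`K`, as often as expected, up to `δ K`. -/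
def Joint (b l : ℕ) (δ : ℝ) (K n a : ℕ) : Prop :=
  ∀ u < b ^ l, ∀ v < b ^ l,
    |(blocks2 b l u v K n a : ℝ) - K / (b : ℝ) ^ (2 * l)| < δ * K

theorem carries_eq (b K a a' : ℕ) : carries b K a a' =
    ((Finset.range K).filter
      fun i => b ^ (i + 1) ≤ a % b ^ (i + 1) + a' % b ^ (i + 1)).card := by
  unfold carries
  rw [← Set.ncard_coe_finset]
  congr 1
  ext i
  simp

theorem rpow_quarter {K : ℕ} (δ : ℝ) :
    δ * (K : ℝ) ^ (1 / 4 : ℝ) * (K : ℝ) ^ (3 / 4 : ℝ) = δ * K := by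
  rcases Nat.eq_zero_or_pos K with rfl | hK
  · norm_num
  · have h : (0 : ℝ) < K := by exact_mod_cast hK
    rw [mul_assoc, ← Real.rpow_add h]
    norm_num

theorem quarter_pow {K : ℕ} (δ : ℝ) : (δ * (K : ℝ) ^ (1 / 4 : ℝ)) ^ 4 = δ ^ 4 * K := by
  have h : (0 : ℝ) ≤ K := Nat.cast_nonneg _
  rw [mul_pow, ← Real.rpow_natCast ((K : ℝ) ^ (1 / 4 : ℝ)) 4, ← Real.rpow_mul h]
  norm_num

theorem exp_eq {b K : ℕ} (hb : 2 ≤ b) (c δ : ℝ) :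
    ((b : ℝ) ^ K) ^ (c / Real.log b * δ ^ 4) =
      Real.exp (c * (δ * (K : ℝ) ^ (1 / 4 : ℝ)) ^ 4) := by
  have hb' : (1 : ℝ) < b := by exact_mod_cast hb
  have hl : 0 < Real.log b := Real.log_pos hb'
  have hx : (0 : ℝ) < (b : ℝ) ^ K := by positivity
  rw [Real.rpow_def_of_pos hx, Real.log_pow, quarter_pow]
  congr 1
  field_simp

theorem union_le {α ι : Type} (X : Set α) (hX : X.Finite) (I : Finset ι) (p : ι → α → Prop) :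
    ({a | a ∈ X ∧ ∃ i ∈ I, p i a}.ncard : ℝ) ≤ ∑ i ∈ I, ({a | a ∈ X ∧ p i a}.ncard : ℝ) := by
  classical
  have e1 : {a | a ∈ X ∧ ∃ i ∈ I, p i a} =
      ((I.biUnion fun i => hX.toFinset.filter (p i) : Finset α) : Set α) := by
    ext a
    simp only [Set.mem_ofPred_eq, Finset.coe_biUnion, Set.mem_iUnion, Finset.mem_coe,
      Finset.mem_filter, Set.Finite.mem_toFinset, exists_prop]
    tauto
  have e2 : ∀ i, {a | a ∈ X ∧ p i a} = ((hX.toFinset.filter (p i) : Finset α) : Set α) := by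
    intro i
    ext a
    simp only [Set.mem_ofPred_eq, Finset.mem_coe, Finset.mem_filter, Set.Finite.mem_toFinset]
  rw [e1, Set.ncard_coe_finset]
  refine le_trans (Nat.cast_le.2 Finset.card_biUnion_le) ?_
  push_cast
  refine Finset.sum_le_sum fun i _ => ?_
  rw [e2, Set.ncard_coe_finset]

theorem sum_pow_le {ι : Type} (I : Finset ι) (f : ι → ℝ) {m : ℕ} (hm : m ≠ 0) {Y : ℝ}
    (hY : 0 ≤ Y) (h0 : ∀ i ∈ I, 0 ≤ f i) (hf : ∀ i ∈ I, f i ^ m ≤ Y) :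
    (∑ i ∈ I, f i) ^ m ≤ (I.card : ℝ) ^ m * Y := by
  have hy : (Y ^ ((m : ℝ)⁻¹)) ^ m = Y := Real.rpow_inv_natCast_pow hY hm
  have hy0 : 0 ≤ Y ^ ((m : ℝ)⁻¹) := by positivity
  have h1 : ∀ i ∈ I, f i ≤ Y ^ ((m : ℝ)⁻¹) := fun i hi =>
    le_of_pow_le_pow_left₀ hm hy0 ((hf i hi).trans hy.ge)
  have h2 : ∑ i ∈ I, f i ≤ (I.card : ℝ) * Y ^ ((m : ℝ)⁻¹) := by
    rw [← nsmul_eq_mul]
    exact Finset.sum_le_card_nsmul _ _ _ h1
  calc (∑ i ∈ I, f i) ^ m ≤ ((I.card : ℝ) * Y ^ ((m : ℝ)⁻¹)) ^ m :=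
        pow_le_pow_left₀ (Finset.sum_nonneg h0) h2 m
    _ = _ := by rw [mul_pow, hy]

/-- the exceptional elements -/
theorem elements_all (b l : ℕ) (hb : 2 ≤ b) : ∃ c C : ℝ, 0 < c ∧ 0 < C ∧
    ∀ (A : Set ℕ) (K : ℕ) (δ : ℝ), 1 ≤ K → 0 ≤ δ →
      ({a | a ∈ A ∧ a < b ^ K ∧ ¬ Normal b l δ K a}.ncard : ℝ) ^ 4 *
        ((b : ℝ) ^ K) ^ (c * δ ^ 4) ≤
      C * ((b : ℝ) ^ K * ∑ n ∈ Finset.range (2 * b ^ K), (rep A n : ℝ) ^ 2) := by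
  obtain ⟨c, C, hc, hC, h⟩ := elements b l hb
  have hb' : (1 : ℝ) < b := by exact_mod_cast hb
  have hl : 0 < Real.log b := Real.log_pos hb'
  refine ⟨c / Real.log b, ((b ^ l : ℕ) : ℝ) ^ 4 * C, by positivity, by positivity,
    fun A K δ hK hδ => ?_⟩
  set X : Set ℕ := {a | a ∈ A ∧ a < b ^ K} with hX
  have hXf : X.Finite := (Set.finite_lt_nat (b ^ K)).subset fun a ha => ha.2
  set S : ℝ := (b : ℝ) ^ K * ∑ n ∈ Finset.range (2 * b ^ K), (rep A n : ℝ) ^ 2 with hS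
  have hS0 : 0 ≤ S := by positivity
  have e1 : {a | a ∈ A ∧ a < b ^ K ∧ ¬ Normal b l δ K a} = {a | a ∈ X ∧
      ∃ v ∈ Finset.range (b ^ l), δ * K ≤ |(blocks b l v K a : ℝ) - K / (b : ℝ) ^ l|} := by
    ext a
    simp only [hX, Set.mem_ofPred_eq, Normal, Finset.mem_range, not_forall, not_lt, exists_prop]
    tauto
  rw [exp_eq hb, e1]
  set e : ℝ := Real.exp (c * (δ * (K : ℝ) ^ (1 / 4 : ℝ)) ^ 4) with he
  have he0 : 0 < e := Real.exp_pos _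
  have h1 := union_le X hXf (Finset.range (b ^ l))
    (fun v a => δ * K ≤ |(blocks b l v K a : ℝ) - K / (b : ℝ) ^ l|)
  have h2 := sum_pow_le (Finset.range (b ^ l)) (fun v => ({a | a ∈ X ∧
    δ * K ≤ |(blocks b l v K a : ℝ) - K / (b : ℝ) ^ l|}.ncard : ℝ)) (m := 4) (by norm_num)
    (Y := C * S / e) (by positivity) (fun v _ => Nat.cast_nonneg _) (fun v hv => by
      have h3 := h A v K (δ * (K : ℝ) ^ (1 / 4 : ℝ)) (Finset.mem_range.1 hv) hK (by positivity)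
      rw [rpow_quarter, Real.exp_neg, ← he, ← hS] at h3
      have e2 : {a | a ∈ X ∧ δ * K ≤ |(blocks b l v K a : ℝ) - K / (b : ℝ) ^ l|} =
          {a | a ∈ A ∧ a < b ^ K ∧
            δ * K ≤ |(blocks b l v K a : ℝ) - K / (b : ℝ) ^ l|} := by
        ext a
        simp only [hX, Set.mem_ofPred_eq]
        tauto
      simp only [e2]
      refine h3.trans (le_of_eq ?_)
      rw [div_eq_mul_inv]
      ring)
  rw [Finset.card_range] at h2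
  calc _ ≤ (∑ v ∈ Finset.range (b ^ l), ({a | a ∈ X ∧
        δ * K ≤ |(blocks b l v K a : ℝ) - K / (b : ℝ) ^ l|}.ncard : ℝ)) ^ 4 * e :=
        mul_le_mul_of_nonneg_right (pow_le_pow_left₀ (Nat.cast_nonneg _) h1 4) he0.le
    _ ≤ (((b ^ l : ℕ) : ℝ) ^ 4 * (C * S / e)) * e := mul_le_mul_of_nonneg_right h2 he0.le
    _ = _ := by field_simp

/-- the exceptional pairs, blocks -/
theorem pairs_all (b l : ℕ) (hb : 2 ≤ b) : ∃ c C : ℝ, 0 < c ∧ 0 < C ∧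
    ∀ (A : Set ℕ) (K : ℕ) (δ : ℝ), 1 ≤ K → 0 ≤ δ →
      ({p : ℕ × ℕ | p.1 ∈ A ∧ p.2 ∈ A ∧ p.1 < b ^ K ∧ p.2 < b ^ K ∧
        ¬ Joint b l δ K (p.1 + p.2) p.1}.ncard : ℝ) ^ 2 * ((b : ℝ) ^ K) ^ (c * δ ^ 4) ≤
      C * ((b : ℝ) ^ K * ∑ n ∈ Finset.range (2 * b ^ K), (rep A n : ℝ) ^ 2) := by
  obtain ⟨c, C, hc, hC, h⟩ := pairs b l hb
  have hb' : (1 : ℝ) < b := by exact_mod_cast hb
  have hl : 0 < Real.log b := Real.log_pos hb'
  refine ⟨c / Real.log b, ((b ^ l * b ^ l : ℕ) : ℝ) ^ 2 * C, by positivity, by positivity,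
    fun A K δ hK hδ => ?_⟩
  set X : Set (ℕ × ℕ) := {p | p.1 ∈ A ∧ p.2 ∈ A ∧ p.1 < b ^ K ∧ p.2 < b ^ K} with hX
  have hXf : X.Finite := ((Set.finite_lt_nat (b ^ K)).prod (Set.finite_lt_nat (b ^ K))).subset
    fun a ha => ⟨ha.2.2.1, ha.2.2.2⟩
  set S : ℝ := (b : ℝ) ^ K * ∑ n ∈ Finset.range (2 * b ^ K), (rep A n : ℝ) ^ 2 with hS
  have hS0 : 0 ≤ S := by positivity
  have e1 : {p : ℕ × ℕ | p.1 ∈ A ∧ p.2 ∈ A ∧ p.1 < b ^ K ∧ p.2 < b ^ K ∧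
      ¬ Joint b l δ K (p.1 + p.2) p.1} = {p | p ∈ X ∧
      ∃ w ∈ Finset.range (b ^ l) ×ˢ Finset.range (b ^ l), δ * K ≤
        |(blocks2 b l w.1 w.2 K (p.1 + p.2) p.1 : ℝ) - K / (b : ℝ) ^ (2 * l)|} := by
    ext p
    simp only [hX, Set.mem_ofPred_eq, Joint, Finset.mem_product, Finset.mem_range, not_forall,
      not_lt, exists_prop, Prod.exists]
    constructor
    · rintro ⟨h1, h2, h3, h4, u, hu, v, hv, h5⟩
      exact ⟨⟨h1, h2, h3, h4⟩, u, v, ⟨hu, hv⟩, h5⟩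
    · rintro ⟨⟨h1, h2, h3, h4⟩, u, v, ⟨hu, hv⟩, h5⟩
      exact ⟨h1, h2, h3, h4, u, hu, v, hv, h5⟩
  rw [exp_eq hb, e1]
  set e : ℝ := Real.exp (c * (δ * (K : ℝ) ^ (1 / 4 : ℝ)) ^ 4) with he
  have he0 : 0 < e := Real.exp_pos _
  have h1 := union_le X hXf (Finset.range (b ^ l) ×ˢ Finset.range (b ^ l))
    (fun w p => δ * K ≤ |(blocks2 b l w.1 w.2 K (p.1 + p.2) p.1 : ℝ) -
      K / (b : ℝ) ^ (2 * l)|)
  have h2 := sum_pow_le (Finset.range (b ^ l) ×ˢ Finset.range (b ^ l))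
    (fun w => ({p | p ∈ X ∧ δ * K ≤ |(blocks2 b l w.1 w.2 K (p.1 + p.2) p.1 : ℝ) -
      K / (b : ℝ) ^ (2 * l)|}.ncard : ℝ)) (m := 2) (by norm_num)
    (Y := C * S / e) (by positivity) (fun v _ => Nat.cast_nonneg _) (fun w hw => by
      rw [Finset.mem_product] at hw
      have h3 := h A w.1 w.2 K (δ * (K : ℝ) ^ (1 / 4 : ℝ)) (Finset.mem_range.1 hw.1)
        (Finset.mem_range.1 hw.2) hK (by positivity)
      rw [rpow_quarter, Real.exp_neg, ← he, ← hS] at h3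
      have e2 : {p | p ∈ X ∧ δ * K ≤ |(blocks2 b l w.1 w.2 K (p.1 + p.2) p.1 : ℝ) -
            K / (b : ℝ) ^ (2 * l)|} =
          {p : ℕ × ℕ | p.1 ∈ A ∧ p.2 ∈ A ∧ p.1 < b ^ K ∧ p.2 < b ^ K ∧
            δ * K ≤ |(blocks2 b l w.1 w.2 K (p.1 + p.2) p.1 : ℝ) -
              K / (b : ℝ) ^ (2 * l)|} := by
        ext a
        simp only [hX, Set.mem_ofPred_eq]
        tauto
      simp only [e2]
      refine h3.trans (le_of_eq ?_)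
      rw [div_eq_mul_inv]
      ring)
  rw [Finset.card_product, Finset.card_range] at h2
  calc _ ≤ (∑ w ∈ Finset.range (b ^ l) ×ˢ Finset.range (b ^ l), ({p | p ∈ X ∧
        δ * K ≤ |(blocks2 b l w.1 w.2 K (p.1 + p.2) p.1 : ℝ) -
          K / (b : ℝ) ^ (2 * l)|}.ncard : ℝ)) ^ 2 * e :=
        mul_le_mul_of_nonneg_right (pow_le_pow_left₀ (Nat.cast_nonneg _) h1 2) he0.le
    _ ≤ (((b ^ l * b ^ l : ℕ) : ℝ) ^ 2 * (C * S / e)) * e :=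
        mul_le_mul_of_nonneg_right h2 he0.le
    _ = _ := by field_simp

/-- the exceptional pairs, carries -/
theorem carry_all (b : ℕ) (hb : 2 ≤ b) : ∃ c C : ℝ, 0 < c ∧ 0 < C ∧
    ∀ (A : Set ℕ) (K : ℕ) (δ : ℝ), 1 ≤ K → 0 ≤ δ →
      ({p : ℕ × ℕ | p.1 ∈ A ∧ p.2 ∈ A ∧ p.1 < b ^ K ∧ p.2 < b ^ K ∧
        δ * K ≤ |(carries b K p.1 p.2 : ℝ) - K / 2|}.ncard : ℝ) ^ 2 *
          ((b : ℝ) ^ K) ^ (c * δ ^ 4) ≤
      C * ((b : ℝ) ^ K * ∑ n ∈ Finset.range (2 * b ^ K), (rep A n : ℝ) ^ 2) := by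
  classical
  obtain ⟨c₀, C₀, hc₀, hC₀, h₀⟩ := tails_pairs b 1 hb
  obtain ⟨c, C, hc, hC, h⟩ := Pool.Agent.Helper18.FP.carries_of hb hc₀ hC₀
    (fun K B P u v t hK hB hP hu hv ht hdev => by
      have h1 := h₀ u v K B P t (by rwa [pow_one]) (by rwa [pow_one]) hK hB hP ht
        (fun p hp => by simpa [Pool.Agent.Helper5.TQ.cnt2] using hdev p hp)
      rw [neg_mul, mul_assoc]
      exact h1)
  have hb' : (1 : ℝ) < b := by exact_mod_cast hb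
  have hl : 0 < Real.log b := Real.log_pos hb'
  refine ⟨c / Real.log b, C, by positivity, hC, fun A K δ hK hδ => ?_⟩
  rw [exp_eq hb]
  set B : Finset ℕ := (Finset.range (b ^ K)).filter fun a => a ∈ A with hB
  set P : Finset (ℕ × ℕ) := (B ×ˢ B).filter fun p => δ * K ≤
    |(carries b K p.1 p.2 : ℝ) - K / 2| with hP
  have e1 : {p : ℕ × ℕ | p.1 ∈ A ∧ p.2 ∈ A ∧ p.1 < b ^ K ∧ p.2 < b ^ K ∧
      δ * K ≤ |(carries b K p.1 p.2 : ℝ) - K / 2|} = (P : Set (ℕ × ℕ)) := by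
    ext p
    rw [hP, Finset.coe_filter, Set.mem_ofPred_eq, Set.mem_ofPred_eq, Finset.mem_product, hB,
      Finset.mem_filter, Finset.mem_filter, Finset.mem_range, Finset.mem_range]
    tauto
  rw [e1, Set.ncard_coe_finset]
  have h1 := h K B P (δ * (K : ℝ) ^ (1 / 4 : ℝ)) hK (Finset.filter_subset _ _)
    (Finset.filter_subset _ _) (by positivity) (fun p hp => by
      rw [rpow_quarter, ← carries_eq]
      exact (Finset.mem_filter.1 hp).2)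
  set e : ℝ := Real.exp (c * (δ * (K : ℝ) ^ (1 / 4 : ℝ)) ^ 4) with he
  have he0 : 0 < e := Real.exp_pos _
  rw [neg_mul, Real.exp_neg, ← he] at h1
  calc (P.card : ℝ) ^ 2 * e ≤ (C * e⁻¹ * (b : ℝ) ^ K * ∑ n ∈ Finset.range (2 * b ^ K),
        (Pool.Agent.Helper16.NM.r B n : ℝ) ^ 2) * e := mul_le_mul_of_nonneg_right h1 he0.le
    _ = C * ((b : ℝ) ^ K * ∑ n ∈ Finset.range (2 * b ^ K),
        (Pool.Agent.Helper16.NM.r B n : ℝ) ^ 2) := by field_simp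
    _ ≤ _ := mul_le_mul_of_nonneg_left (mul_le_mul_of_nonneg_left
        (energy_mono (fun a ha => (Finset.mem_filter.1 ha).2) _) (by positivity)) hC.le

theorem fin_one {x N S c c₁ C δ : ℝ} (hx : 1 ≤ x) (hN : 0 ≤ N) (hS : 0 ≤ S)
    (h : N * x ^ (c * δ ^ 4) ≤ C * (x * S)) (h0 : 0 ≤ c₁) (h1 : c₁ ≤ c) (h2 : c₁ * C ≤ 1) :
    c₁ * N * x ^ (c₁ * δ ^ 4 - 1) ≤ S := by
  have hx0 : 0 < x := lt_of_lt_of_le one_pos hx
  have h3 : x ^ (c₁ * δ ^ 4) ≤ x ^ (c * δ ^ 4) :=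
    Real.rpow_le_rpow_of_exponent_le hx (mul_le_mul_of_nonneg_right h1 (by positivity))
  rw [Real.rpow_sub hx0, Real.rpow_one, ← mul_div_assoc, div_le_iff₀ hx0]
  calc c₁ * N * x ^ (c₁ * δ ^ 4) ≤ c₁ * N * x ^ (c * δ ^ 4) :=
        mul_le_mul_of_nonneg_left h3 (by positivity)
    _ = c₁ * (N * x ^ (c * δ ^ 4)) := by ring
    _ ≤ c₁ * (C * (x * S)) := mul_le_mul_of_nonneg_left h h0
    _ = (c₁ * C) * (S * x) := by ring
    _ ≤ 1 * (S * x) := mul_le_mul_of_nonneg_right h2 (by positivity)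
    _ = S * x := one_mul _

theorem fin_two {x N S M c c₁ C δ : ℝ} (hx : 1 ≤ x) (hN : 0 ≤ N) (hM : 0 ≤ M) (hC : 0 < C)
    (hS : S ≤ 2 * x * M ^ 2)
    (h : N ^ 2 * x ^ (c * δ ^ 4) ≤ C * (x * S)) (h0 : 0 ≤ c₁) (h1 : c₁ ≤ c / 2)
    (h2 : c₁ * (2 * C + 1) ≤ 1) :
    c₁ * N * x ^ (c₁ * δ ^ 4 - 1) ≤ M := by
  have hx0 : 0 < x := lt_of_lt_of_le one_pos hx
  have h3 : (N * x ^ (c / 2 * δ ^ 4)) ^ 2 ≤ ((2 * C + 1) * (x * M)) ^ 2 := by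
    have e1 : (x ^ (c / 2 * δ ^ 4)) ^ 2 = x ^ (c * δ ^ 4) := by
      rw [← Real.rpow_natCast (x ^ (c / 2 * δ ^ 4)) 2, ← Real.rpow_mul hx0.le]
      congr 1
      push_cast
      ring
    rw [mul_pow, e1, mul_pow]
    calc N ^ 2 * x ^ (c * δ ^ 4) ≤ C * (x * S) := h
      _ ≤ C * (x * (2 * x * M ^ 2)) := by gcongr
      _ = (2 * C) * (x * M) ^ 2 := by ring
      _ ≤ (2 * C + 1) ^ 2 * (x * M) ^ 2 := by
          apply mul_le_mul_of_nonneg_right _ (by positivity)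
          nlinarith [hC]
  have h4 : N * x ^ (c / 2 * δ ^ 4) ≤ (2 * C + 1) * (x * M) :=
    le_of_pow_le_pow_left₀ (by norm_num) (by positivity) h3
  exact fin_one hx hN hM h4 h0 h1 h2

/-- the main inequalities -/
theorem main (b l : ℕ) (hb : 2 ≤ b) : ∃ c : ℝ, 0 < c ∧
    ∀ (A : Set ℕ) (K : ℕ) (δ : ℝ), 1 ≤ K → 0 ≤ δ →
      c * ({a | a ∈ A ∧ a < b ^ K ∧ ¬ Normal b l δ K a}.ncard : ℝ) ^ 4 *
          ((b : ℝ) ^ K) ^ (c * δ ^ 4 - 1) ≤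
        ∑ n ∈ Finset.range (2 * b ^ K), (rep A n : ℝ) ^ 2 ∧
      c * ({p : ℕ × ℕ | p.1 ∈ A ∧ p.2 ∈ A ∧ p.1 < b ^ K ∧ p.2 < b ^ K ∧
            (¬ Joint b l δ K (p.1 + p.2) p.1 ∨
              δ * K ≤ |(carries b K p.1 p.2 : ℝ) - K / 2|)}.ncard : ℝ) ^ 2 *
          ((b : ℝ) ^ K) ^ (c * δ ^ 4 - 1) ≤
        ∑ n ∈ Finset.range (2 * b ^ K), (rep A n : ℝ) ^ 2 ∧
      ∃ n < 2 * b ^ K,
        c * ({a | a ∈ A ∧ a < b ^ K ∧ ¬ Normal b l δ K a}.ncard : ℝ) ^ 2 *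
            ((b : ℝ) ^ K) ^ (c * δ ^ 4 - 1) ≤ rep A n ∧
        c * ({p : ℕ × ℕ | p.1 ∈ A ∧ p.2 ∈ A ∧ p.1 < b ^ K ∧ p.2 < b ^ K ∧
              (¬ Joint b l δ K (p.1 + p.2) p.1 ∨
                δ * K ≤ |(carries b K p.1 p.2 : ℝ) - K / 2|)}.ncard : ℝ) *
            ((b : ℝ) ^ K) ^ (c * δ ^ 4 - 1) ≤ rep A n := by
  obtain ⟨c₁, C₁, hc₁, hC₁, h1⟩ := elements_all b l hb
  obtain ⟨c₂, C₂, hc₂, hC₂, h2⟩ := pairs_all b l hb
  obtain ⟨c₃, C₃, hc₃, hC₃, h3⟩ := carry_all b hb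
  set C : ℝ := C₁ + 2 * (C₂ + C₃) with hC
  have hC0 : 0 < C := by positivity
  set c₀ : ℝ := min c₁ (min c₂ c₃) with hc₀
  have hc₀0 : 0 < c₀ := lt_min hc₁ (lt_min hc₂ hc₃)
  refine ⟨min (c₀ / 2) (1 / (2 * C + 1)), lt_min (by positivity) (by positivity),
    fun A K δ hK hδ => ?_⟩
  set c : ℝ := min (c₀ / 2) (1 / (2 * C + 1)) with hc
  have hcpos : 0 < c := lt_min (by positivity) (by positivity)
  have hcc : c ≤ c₀ / 2 := min_le_left _ _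
  have hcc0 : c ≤ c₀ := by linarith
  have hcC : c * (2 * C + 1) ≤ 1 := by
    have : c ≤ 1 / (2 * C + 1) := min_le_right _ _
    rwa [le_div_iff₀ (by positivity)] at this
  have hcC1 : c * C ≤ 1 := le_trans (mul_le_mul_of_nonneg_left (by linarith) hcpos.le) hcC
  set x : ℝ := (b : ℝ) ^ K with hx
  have hx1 : 1 ≤ x := one_le_pow₀ (by exact_mod_cast (by omega : 1 ≤ b))
  have hx0 : 0 < x := lt_of_lt_of_le one_pos hx1
  set D : ℝ := ({a | a ∈ A ∧ a < b ^ K ∧ ¬ Normal b l δ K a}.ncard : ℝ) with hD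
  have hD0 : 0 ≤ D := Nat.cast_nonneg _
  set S : ℝ := ∑ n ∈ Finset.range (2 * b ^ K), (rep A n : ℝ) ^ 2 with hS
  have hS0 : 0 ≤ S := Finset.sum_nonneg fun n _ => by positivity
  have hd : 0 ≤ δ ^ 4 := by positivity
  have g1 : D ^ 4 * x ^ (c₀ * δ ^ 4) ≤ C * (x * S) := by
    calc D ^ 4 * x ^ (c₀ * δ ^ 4) ≤ D ^ 4 * x ^ (c₁ * δ ^ 4) := by
          apply mul_le_mul_of_nonneg_left _ (by positivity)
          exact Real.rpow_le_rpow_of_exponent_le hx1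
            (mul_le_mul_of_nonneg_right (min_le_left _ _) hd)
      _ ≤ C₁ * (x * S) := h1 A K δ hK hδ
      _ ≤ C * (x * S) := mul_le_mul_of_nonneg_right (by linarith) (by positivity)
  set P : ℝ := ({p : ℕ × ℕ | p.1 ∈ A ∧ p.2 ∈ A ∧ p.1 < b ^ K ∧ p.2 < b ^ K ∧
    (¬ Joint b l δ K (p.1 + p.2) p.1 ∨
      δ * K ≤ |(carries b K p.1 p.2 : ℝ) - K / 2|)}.ncard : ℝ) with hP
  have hP0 : 0 ≤ P := Nat.cast_nonneg _
  set P₂ : ℝ := ({p : ℕ × ℕ | p.1 ∈ A ∧ p.2 ∈ A ∧ p.1 < b ^ K ∧ p.2 < b ^ K ∧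
    ¬ Joint b l δ K (p.1 + p.2) p.1}.ncard : ℝ) with hP₂
  set P₃ : ℝ := ({p : ℕ × ℕ | p.1 ∈ A ∧ p.2 ∈ A ∧ p.1 < b ^ K ∧ p.2 < b ^ K ∧
    δ * K ≤ |(carries b K p.1 p.2 : ℝ) - K / 2|}.ncard : ℝ) with hP₃
  have hPle : P ≤ P₂ + P₃ := by
    have e1 : {p : ℕ × ℕ | p.1 ∈ A ∧ p.2 ∈ A ∧ p.1 < b ^ K ∧ p.2 < b ^ K ∧
        (¬ Joint b l δ K (p.1 + p.2) p.1 ∨
          δ * K ≤ |(carries b K p.1 p.2 : ℝ) - K / 2|)} =
        {p : ℕ × ℕ | p.1 ∈ A ∧ p.2 ∈ A ∧ p.1 < b ^ K ∧ p.2 < b ^ K ∧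
          ¬ Joint b l δ K (p.1 + p.2) p.1} ∪
        {p : ℕ × ℕ | p.1 ∈ A ∧ p.2 ∈ A ∧ p.1 < b ^ K ∧ p.2 < b ^ K ∧
          δ * K ≤ |(carries b K p.1 p.2 : ℝ) - K / 2|} := by
      ext p
      simp only [Set.mem_ofPred_eq, Set.mem_union]
      tauto
    rw [hP, hP₂, hP₃, e1]
    exact_mod_cast Set.ncard_union_le _ _
  have g2 : P ^ 2 * x ^ (c₀ * δ ^ 4) ≤ C * (x * S) := by
    have k2 := h2 A K δ hK hδ
    have k3 := h3 A K δ hK hδ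
    rw [← hP₂, ← hx, ← hS] at k2
    rw [← hP₃, ← hx, ← hS] at k3
    have z2 : x ^ (c₀ * δ ^ 4) ≤ x ^ (c₂ * δ ^ 4) := Real.rpow_le_rpow_of_exponent_le hx1
      (mul_le_mul_of_nonneg_right ((min_le_right _ _).trans (min_le_left _ _)) hd)
    have z3 : x ^ (c₀ * δ ^ 4) ≤ x ^ (c₃ * δ ^ 4) := Real.rpow_le_rpow_of_exponent_le hx1
      (mul_le_mul_of_nonneg_right ((min_le_right _ _).trans (min_le_right _ _)) hd)
    have z0 : 0 ≤ x ^ (c₀ * δ ^ 4) := by positivity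
    have y1 : P ^ 2 ≤ 2 * (P₂ ^ 2 + P₃ ^ 2) :=
      (pow_le_pow_left₀ hP0 hPle 2).trans (by nlinarith [sq_nonneg (P₂ - P₃)])
    calc P ^ 2 * x ^ (c₀ * δ ^ 4) ≤ 2 * (P₂ ^ 2 + P₃ ^ 2) * x ^ (c₀ * δ ^ 4) :=
          mul_le_mul_of_nonneg_right y1 z0
      _ = 2 * (P₂ ^ 2 * x ^ (c₀ * δ ^ 4) + P₃ ^ 2 * x ^ (c₀ * δ ^ 4)) := by ring
      _ ≤ 2 * (P₂ ^ 2 * x ^ (c₂ * δ ^ 4) + P₃ ^ 2 * x ^ (c₃ * δ ^ 4)) := by gcongr
      _ ≤ 2 * (C₂ * (x * S) + C₃ * (x * S)) := by linarith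
      _ = (2 * (C₂ + C₃)) * (x * S) := by ring
      _ ≤ C * (x * S) := mul_le_mul_of_nonneg_right (by linarith) (by positivity)
  refine ⟨fin_one hx1 (by positivity) hS0 g1 hcpos.le hcc0 hcC1,
    fin_one hx1 (by positivity) hS0 g2 hcpos.le hcc0 hcC1, ?_⟩
  obtain ⟨n, hn, hmax⟩ := Finset.exists_max_image (Finset.range (2 * b ^ K)) (fun n => rep A n)
    ⟨0, Finset.mem_range.2 (by positivity)⟩
  have hSM : S ≤ 2 * x * (rep A n : ℝ) ^ 2 := by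
    have := Finset.sum_le_card_nsmul (Finset.range (2 * b ^ K)) (fun n => (rep A n : ℝ) ^ 2)
      ((rep A n : ℝ) ^ 2) (fun m hm => pow_le_pow_left₀ (Nat.cast_nonneg _)
        (by exact_mod_cast hmax m hm) 2)
    rw [Finset.card_range, nsmul_eq_mul] at this
    push_cast at this
    exact this
  refine ⟨n, Finset.mem_range.1 hn, ?_, ?_⟩
  · exact fin_two hx1 (by positivity) (Nat.cast_nonneg _) hC0 hSM
      (by rw [← pow_mul]; exact g1) hcpos.le hcc hcC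
  · exact fin_two hx1 hP0 (Nat.cast_nonneg _) hC0 hSM g2 hcpos.le hcc hcC

end Pool.Agent.Helper5.FP.Cand
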