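import Pool.Agent.Helper16.FP.Fin

/-!
# Almost all elements and almost all representations are normal: one scale
-/

set_option autoImplicit false

namespace Pool.Agent.Helper5.FP.Crisp

open Pool.Agent.Helper5.FP.Text Pool.Agent.Helper5.FP.Cand Filter

/-- from the inequality to a strict power saving -/
theorem save {b : ℕ} (hb : 2 ≤ b) {c₀ δ : ℝ} (hc₀ : 0 < c₀) (hδ : 0 < δ) : ∀ᶠ K : ℕ in atTop,
    ∀ S : ℝ, S ≤ ((b : ℝ) ^ K) ^ (1 + c₀ / 8 * δ ^ 4) →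
      (∀ N : ℝ, 0 ≤ N → c₀ * N ^ 4 * ((b : ℝ) ^ K) ^ (c₀ * δ ^ 4 - 1) ≤ S →
        N < ((b : ℝ) ^ K) ^ (1 / 2 - c₀ / 8 * δ ^ 4)) ∧
      ∀ N : ℝ, 0 ≤ N → c₀ * N ^ 2 * ((b : ℝ) ^ K) ^ (c₀ * δ ^ 4 - 1) ≤ S →
        N < ((b : ℝ) ^ K) ^ (1 - c₀ / 8 * δ ^ 4) := by
  have hb' : (1 : ℝ) < b := by exact_mod_cast hb
  have hη : 0 < c₀ * δ ^ 4 := by positivity
  obtain ⟨η, hη'⟩ : ∃ η, η = c₀ * δ ^ 4 := ⟨_, rfl⟩
  rw [← hη'] at hη
  have hxt : Tendsto (fun K : ℕ => (b : ℝ) ^ K) atTop atTop :=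
    tendsto_pow_atTop_atTop_of_one_lt hb'
  have hxc : Tendsto (fun K : ℕ => ((b : ℝ) ^ K) ^ (3 * η / 8)) atTop atTop :=
    (tendsto_rpow_atTop (by positivity)).comp hxt
  filter_upwards [hxc.eventually_gt_atTop (1 / c₀)] with K hK S hS
  obtain ⟨x, hx⟩ : ∃ x : ℝ, x = (b : ℝ) ^ K := ⟨_, rfl⟩
  rw [← hx] at hK hS ⊢
  have hx0 : 0 < x := by rw [hx]; positivity
  have hx1 : 1 ≤ x := by rw [hx]; exact one_le_pow₀ hb'.le
  have e8 : c₀ / 8 * δ ^ 4 = η / 8 := by rw [hη']; ring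
  rw [e8] at hS ⊢
  rw [← hη']
  constructor
  · intro N hN h
    by_contra hcon
    rw [not_lt] at hcon
    have h1 : x ^ (2 - η / 2) ≤ N ^ 4 := by
      have := pow_le_pow_left₀ (by positivity) hcon 4
      rw [← Real.rpow_natCast (x ^ (1 / 2 - η / 8)) 4, ← Real.rpow_mul hx0.le] at this
      push_cast at this
      rwa [show (1 / 2 - η / 8) * 4 = 2 - η / 2 by ring] at this
    have h2 : c₀ * x ^ (2 - η / 2) * x ^ (η - 1) ≤ x ^ (1 + η / 8) :=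
      (mul_le_mul_of_nonneg_right (mul_le_mul_of_nonneg_left h1 hc₀.le) (by positivity)).trans
        (h.trans hS)
    rw [mul_assoc, ← Real.rpow_add hx0, show 2 - η / 2 + (η - 1) = 1 + η / 8 + 3 * η / 8 by ring,
      Real.rpow_add hx0 (1 + η / 8)] at h2
    have h3 : 1 < c₀ * x ^ (3 * η / 8) := by
      rw [div_lt_iff₀ hc₀] at hK
      linarith
    have h4 : 0 < x ^ (1 + η / 8) := by positivity
    nlinarith
  · intro N hN h
    by_contra hcon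
    rw [not_lt] at hcon
    have h1 : x ^ (2 - η / 4) ≤ N ^ 2 := by
      have := pow_le_pow_left₀ (by positivity) hcon 2
      rw [← Real.rpow_natCast (x ^ (1 - η / 8)) 2, ← Real.rpow_mul hx0.le] at this
      push_cast at this
      rwa [show (1 - η / 8) * 2 = 2 - η / 4 by ring] at this
    have h2 : c₀ * x ^ (2 - η / 4) * x ^ (η - 1) ≤ x ^ (1 + η / 8) :=
      (mul_le_mul_of_nonneg_right (mul_le_mul_of_nonneg_left h1 hc₀.le) (by positivity)).trans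
        (h.trans hS)
    rw [mul_assoc, ← Real.rpow_add hx0, show 2 - η / 4 + (η - 1) = 1 + η / 8 + 5 * η / 8 by ring,
      Real.rpow_add hx0 (1 + η / 8)] at h2
    have h3 : 1 < c₀ * x ^ (3 * η / 8) := by
      rw [div_lt_iff₀ hc₀] at hK
      linarith
    have h5 : x ^ (3 * η / 8) ≤ x ^ (5 * η / 8) :=
      Real.rpow_le_rpow_of_exponent_le hx1 (by linarith)
    have h6 : c₀ * x ^ (3 * η / 8) ≤ c₀ * x ^ (5 * η / 8) :=
      mul_le_mul_of_nonneg_left h5 hc₀.le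
    have h4 : 0 < x ^ (1 + η / 8) := by positivity
    nlinarith

/-- almost all elements, and all representations of almost all integers, are normal -/
theorem law (b l : ℕ) (hb : 2 ≤ b) : ∃ c : ℝ, 0 < c ∧ ∀ δ : ℝ, 0 < δ → ∀ᶠ K : ℕ in atTop,
    ∀ A : Set ℕ, ∑ n ∈ Finset.range (2 * b ^ K), (rep A n : ℝ) ^ 2 ≤
        ((b : ℝ) ^ K) ^ (1 + c * δ ^ 4) →
      ({a | a ∈ A ∧ a < b ^ K ∧ ¬ Normal b l δ K a}.ncard : ℝ) <
        ((b : ℝ) ^ K) ^ (1 / 2 - c * δ ^ 4) ∧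
      ({n | n < b ^ K ∧ ∃ a ∈ A, ∃ a' ∈ A, a + a' = n ∧
        ¬ (Joint b l δ K n a ∧ |(carries b K a a' : ℝ) - K / 2| < δ * K)}.ncard : ℝ) <
        ((b : ℝ) ^ K) ^ (1 - c * δ ^ 4) := by
  obtain ⟨c₀, hc₀, h⟩ := main b l hb
  refine ⟨c₀ / 8, by positivity, fun δ hδ => ?_⟩
  filter_upwards [save hb hc₀ hδ, eventually_ge_atTop 1] with K hK hK1 A hA
  obtain ⟨h1, h2, -⟩ := h A K δ hK1 hδ.le
  refine ⟨(hK _ hA).1 _ (Nat.cast_nonneg _) h1, ?_⟩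
  refine lt_of_le_of_lt ?_ ((hK _ hA).2 _ (Nat.cast_nonneg _) h2)
  have hPf : {p : ℕ × ℕ | p.1 ∈ A ∧ p.2 ∈ A ∧ p.1 < b ^ K ∧ p.2 < b ^ K ∧
      (¬ Joint b l δ K (p.1 + p.2) p.1 ∨
        δ * K ≤ |(carries b K p.1 p.2 : ℝ) - K / 2|)}.Finite :=
    ((Set.finite_lt_nat (b ^ K)).prod (Set.finite_lt_nat (b ^ K))).subset
      fun a ha => ⟨ha.2.2.1, ha.2.2.2.1⟩
  have hNP : {n | n < b ^ K ∧ ∃ a ∈ A, ∃ a' ∈ A, a + a' = n ∧
      ¬ (Joint b l δ K n a ∧ |(carries b K a a' : ℝ) - K / 2| < δ * K)}.ncard ≤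
      {p : ℕ × ℕ | p.1 ∈ A ∧ p.2 ∈ A ∧ p.1 < b ^ K ∧ p.2 < b ^ K ∧
        (¬ Joint b l δ K (p.1 + p.2) p.1 ∨
          δ * K ≤ |(carries b K p.1 p.2 : ℝ) - K / 2|)}.ncard := by
    refine le_trans (Set.ncard_le_ncard ?_ (hPf.image fun p => p.1 + p.2))
      (Set.ncard_image_le hPf)
    rintro m ⟨hm, a, ha, a', ha', hs, hbad⟩
    rw [not_and_or, not_lt] at hbad
    refine ⟨(a, a'), ⟨ha, ha', ?_, ?_, ?_⟩, hs⟩
    · show a < b ^ K
      omega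
    · show a' < b ^ K
      omega
    · show ¬ Joint b l δ K (a + a') a ∨ _
      rw [hs]
      exact hbad
  exact_mod_cast hNP

end Pool.Agent.Helper5.FP.Crisp
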