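import Pool.Agent.Helper5.FP.Crisp

/-!
# Elements and representations that are not normal: the threshold
-/

set_option autoImplicit false

namespace Pool.Agent.Results.MP_12a1af_nt.DigitTails

open Filter

/-- `rep A n` is the number of ordered pairs of elements of `A` with sum `n`. -/
noncomputable def rep (A : Set ℕ) (n : ℕ) : ℕ :=
  {p : ℕ × ℕ | p.1 ∈ A ∧ p.2 ∈ A ∧ p.1 + p.2 = n}.ncard

/-- `blocks b l v K a` is the number of `i < K` such that the digits of `a` in base `b` at the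
places `i, i + 1, ..., i + l - 1` form the number `v`. -/
noncomputable def blocks (b l v K a : ℕ) : ℕ := {i | i < K ∧ a / b ^ i % b ^ l = v}.ncard

/-- `blocks2 b l u v K n a` is the number of `i < K` such that the digits at the places
`i, i + 1, ..., i + l - 1` form the number `u` for `n` and the number `v` for `a`. -/
noncomputable def blocks2 (b l u v K n a : ℕ) : ℕ :=
  {i | i < K ∧ n / b ^ i % b ^ l = u ∧ a / b ^ i % b ^ l = v}.ncard

/-- The number of places `i < K` at which the addition of `a` and `a'` in base `b` has a carry to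
the next place. -/
noncomputable def carries (b K a a' : ℕ) : ℕ :=
  {i | i < K ∧ b ^ (i + 1) ≤ a % b ^ (i + 1) + a' % b ^ (i + 1)}.ncard

/-- `a` is `δ`-normal: every block of `l` digits in base `b` occurs in `a`, at the places below
`K`, as often as expected, up to `δ K`. -/
def Normal (b l : ℕ) (δ : ℝ) (K a : ℕ) : Prop :=
  ∀ v < b ^ l, |(blocks b l v K a : ℝ) - K / (b : ℝ) ^ l| < δ * K

/-- The sum `a + a'` is `δ`-normal: every pair of blocks of `l` digits in base `b` occurs in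
`a + a'` and `a`, at the same places below `K`, as often as expected, and there are as many carries
as expected, up to `δ K`. -/
def NormalSum (b l : ℕ) (δ : ℝ) (K a a' : ℕ) : Prop :=
  (∀ u < b ^ l, ∀ v < b ^ l,
    |(blocks2 b l u v K (a + a') a : ℝ) - K / (b : ℝ) ^ (2 * l)| < δ * K) ∧
  |(carries b K a a' : ℝ) - K / 2| < δ * K

/-- (1) Let `x = b ^ K` be large. If the mean square of the number of representations is small, then
almost all elements of `A` below `x`, and all representations of almost all `n < x`, are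
`δ`-normal, with a power of `x` saved in both cases. (2) The fourth power of `δ` is exact in both
cases, even for a basis of order two with bounded mean square. -/
theorem result :
    (∀ b l : ℕ, 2 ≤ b → ∃ c : ℝ, 0 < c ∧ ∀ δ : ℝ, 0 < δ → ∀ᶠ K : ℕ in atTop, ∀ A : Set ℕ,
      ∑ n ∈ Finset.range (2 * b ^ K), (rep A n : ℝ) ^ 2 ≤ ((b : ℝ) ^ K) ^ (1 + c * δ ^ 4) →
        {a | a ∈ A ∧ a < b ^ K ∧ ¬ Normal b l δ K a}.ncard <
          ((b : ℝ) ^ K) ^ (1 / 2 - c * δ ^ 4) ∧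
        {n | n < b ^ K ∧ ∃ a ∈ A, ∃ a' ∈ A, a + a' = n ∧ ¬ NormalSum b l δ K a a'}.ncard <
          ((b : ℝ) ^ K) ^ (1 - c * δ ^ 4)) ∧
    ∃ (A : Set ℕ) (c C : ℝ), 0 < c ∧
      (∀ n : ℕ, ∃ a ∈ A, ∃ a' ∈ A, a + a' = n) ∧
      (∀ x : ℕ, ∑ n ∈ Finset.range x, (rep A n : ℝ) ^ 2 ≤ C * x) ∧
      ∀ (K : ℕ) (δ : ℝ), 1 ≤ K → 0 ≤ δ → δ ≤ c →
        c * ((2 : ℝ) ^ K) ^ (1 / 2 - C * δ ^ 4) ≤
          {a | a ∈ A ∧ a < 2 ^ K ∧ ¬ Normal 2 1 δ K a}.ncard ∧
        c * ((2 : ℝ) ^ K) ^ (1 - C * δ ^ 4) ≤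
          {n | n < 2 ^ K ∧ ∃ a ∈ A, ∃ a' ∈ A, a + a' = n ∧
            ¬ NormalSum 2 1 δ K a a'}.ncard := by
  have key : ∀ (b l : ℕ) (δ : ℝ) (K : ℕ) (A : Set ℕ),
      {n | n < b ^ K ∧ ∃ a ∈ A, ∃ a' ∈ A, a + a' = n ∧ ¬ NormalSum b l δ K a a'} =
      {n | n < b ^ K ∧ ∃ a ∈ A, ∃ a' ∈ A, a + a' = n ∧
        ¬ (Pool.Agent.Helper5.FP.Cand.Joint b l δ K n a ∧
          |(Pool.Agent.Helper5.FP.Cand.carries b K a a' : ℝ) - K / 2| < δ * K)} := by
    intro b l δ K A
    ext n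
    constructor
    · rintro ⟨hn, a, ha, a', ha', hs, h⟩
      refine ⟨hn, a, ha, a', ha', hs, ?_⟩
      rw [← hs]
      exact h
    · rintro ⟨hn, a, ha, a', ha', hs, h⟩
      refine ⟨hn, a, ha, a', ha', hs, ?_⟩
      rw [← hs] at h
      exact h
  refine ⟨fun b l hb => ?_, ?_⟩
  · obtain ⟨c, hc, h⟩ := Pool.Agent.Helper5.FP.Crisp.law b l hb
    refine ⟨c, hc, fun δ hδ => ?_⟩
    filter_upwards [h δ hδ] with K hK A hA
    rw [key]
    exact hK A hA
  · obtain ⟨A, c, C, hc, h1, h2, h3⟩ := Pool.Agent.Helper16.FP.exact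
    refine ⟨A, c, C, hc, h1, h2, fun K δ hK h0 hδ => ?_⟩
    rw [key]
    obtain ⟨h4, h5⟩ := h3 K δ hK h0 hδ
    refine ⟨h4, ?_⟩
    simp only [not_and_or, not_lt]
    exact h5

end Pool.Agent.Results.MP_12a1af_nt.DigitTails
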