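import Pool.Agent.Helper5.TQ.Arc2
import Pool.Agent.Helper7.SC.Defs

/-!
Fourth power tails: the interface between the Riesz products and the choice of the parameters.
-/

set_option autoImplicit false

namespace Pool.Agent.Helper5.FP

open Finset
open Pool.Agent.Helper16.NM (r)
open Pool.Agent.Helper7.SC (e)

/-- the positions used -/
def pos (q s K : ℕ) : Finset ℕ := (Ico q K).filter fun i => i % q = s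

/-- the fourth root of the fourth moment -/
noncomputable def Lam (b l K : ℕ) (B : Finset ℕ) : ℝ :=
  (8 * ((b : ℝ) ^ (K + l)) ^ 2 * (∑ n ∈ range (2 * b ^ K), (r B n : ℝ) ^ 2) ^ 2) ^ (1 / 4 : ℝ)

/-- the bound given by the Riesz products -/
def RB (b l : ℕ) : Prop := ∀ (D q : ℕ) (T : ℤ → ℤ → ℂ) (f : ℝ → ℝ → ℝ) (W : ℝ),
  1 ≤ q → 4 * D < b ^ q → T 0 0 = 0 →
  (∀ h h' : ℤ, (D : ℤ) < |h| ∨ (D : ℤ) < |h'| → T h h' = 0) →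
  (∀ y y' : ℝ, (f y y' : ℂ) = ∑ h ∈ Icc (-(D : ℤ)) D, ∑ h' ∈ Icc (-(D : ℤ)) D,
    T h h' * e (h * y + h' * y')) →
  (∀ y y', |f y y'| ≤ 1) →
  ∑ h ∈ Icc (-(D : ℤ)) D, ∑ h' ∈ Icc (-(D : ℤ)) D, ‖T h h'‖ ^ (4 / 3 : ℝ) ≤ W →
  ∀ (s K : ℕ) (B : Finset ℕ) (P : Finset (ℕ × ℕ)), B ⊆ range (b ^ K) → P ⊆ B ×ˢ B →
  ∀ (δ X : ℝ), 0 ≤ δ → δ ≤ 1 / 2 →
  (∀ p ∈ P, X ≤ ∑ i ∈ pos q s K,
    f (((p.1 : ℝ) + p.2) / (b : ℝ) ^ (i + l)) ((p.1 : ℝ) / (b : ℝ) ^ (i + l))) →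
  #P * Real.exp (δ * X - δ ^ 2 * #(pos q s K)) ≤
    (1 + δ ^ (4 / 3 : ℝ) * W) ^ ((3 / 4 : ℝ) * #(pos q s K)) * Lam b l K B

end Pool.Agent.Helper5.FP
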