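import Pool.Agent.Helper5.FP.Asm
import Pool.Agent.Helper99.FP.RbF

/-!
Fourth power tails for blocks of digits: elements and pairs.
-/

set_option autoImplicit false

namespace Pool.Agent.Helper5.FP

open Finset
open Pool.Agent.Helper16.NM (r)
open Pool.Agent.Helper5.TQ (cnt cnt2)

theorem ind_full (y : ℝ) : ind 0 1 y = 1 := by
  unfold ind
  rw [if_pos (Int.fract_lt_one _)]

theorem ind_compl {len : ℝ} (h0 : 0 ≤ len) (h1 : len ≤ 1) (u y : ℝ) :
    ind (u + len) (1 - len) y = 1 - ind u len y := by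
  unfold ind
  have h2 := Int.fract_nonneg (y - u)
  have h3 := Int.fract_lt_one (y - u)
  have h4 : y - (u + len) = (⌊y - u⌋ : ℝ) + (Int.fract (y - u) - len) := by
    have := Int.floor_add_fract (y - u)
    linarith
  rw [h4, Int.fract_intCast_add]
  by_cases h : Int.fract (y - u) < len
  · rw [if_pos h, if_neg]
    · ring
    · rw [not_lt]
      have h5 : Int.fract (Int.fract (y - u) - len) = Int.fract (y - u) - len + 1 := by
        rw [Int.fract_eq_iff]
        refine ⟨by linarith, by linarith, -1, ?_⟩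
        push_cast
        ring
      rw [h5]
      linarith
  · rw [if_neg h, if_pos]
    · ring
    · rw [not_lt] at h
      have h5 : Int.fract (Int.fract (y - u) - len) = Int.fract (y - u) - len := by
        rw [Int.fract_eq_self]
        constructor <;> linarith
      rw [h5]
      linarith

/-- blocks of digits are arcs -/
theorem ind_digit {b : ℕ} (hb : 2 ≤ b) (l i v : ℕ) (hv : v < b ^ l) (a : ℕ) :
    ind ((v : ℝ) / (b : ℝ) ^ l) (1 / (b : ℝ) ^ l) ((a : ℝ) / (b : ℝ) ^ (i + l)) =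
      if a / b ^ i % b ^ l = v then 1 else 0 := by
  have hb0 : 0 < b := by omega
  have hbr : (0 : ℝ) < b := by exact_mod_cast hb0
  set q : ℕ := b ^ l with hq
  set L : ℕ := b ^ i with hL
  have hq0 : 0 < q := by positivity
  have hL0 : 0 < L := by positivity
  have hM : (b : ℝ) ^ (i + l) = (L : ℝ) * q := by rw [hL, hq, pow_add]; push_cast; rfl
  have hqr : (b : ℝ) ^ l = q := by rw [hq]; push_cast; rfl
  rw [hM, hqr]
  set a0 : ℕ := a % (L * q) with ha0
  have hqR : (0 : ℝ) < q := by exact_mod_cast hq0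
  have hLR : (0 : ℝ) < L := by exact_mod_cast hL0
  have h1 : (a : ℝ) / (L * q) - v / q = ((a / (L * q) : ℕ) : ℤ) + ((a0 : ℝ) / (L * q) - v / q) := by
    have h2 : ((L * q) * (a / (L * q)) + a0 : ℕ) = a := Nat.div_add_mod a (L * q)
    have h3 : ((L : ℝ) * q) * ((a / (L * q) : ℕ) : ℝ) + a0 = a := by exact_mod_cast h2
    rw [Int.cast_natCast]
    rw [← h3]
    field_simp
    ring
  unfold ind
  rw [h1, Int.fract_intCast_add]
  have ha0lt : a0 < L * q := Nat.mod_lt _ (Nat.mul_pos hL0 hq0)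
  have h4 : a0 / L = a / L % q := by rw [ha0, Nat.mod_mul_right_div_self]
  have hx0 : (0 : ℝ) ≤ (a0 : ℝ) / (L * q) := by positivity
  have hx1 : (a0 : ℝ) / (L * q) < 1 := by
    rw [div_lt_one (by positivity)]
    exact_mod_cast ha0lt
  have hy0 : (0 : ℝ) ≤ (v : ℝ) / q := by positivity
  have hy1 : (v : ℝ) / q + 1 / q ≤ 1 := by
    rw [← add_div, div_le_one hqR]
    exact_mod_cast hv
  have hq1 : (0 : ℝ) < 1 / q := by positivity
  have hcmp : ∀ m : ℕ, (m : ℝ) / q ≤ (a0 : ℝ) / (L * q) ↔ m * L ≤ a0 := by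
    intro m
    rw [div_le_div_iff₀ hqR (by positivity)]
    constructor
    · intro h
      have : ((m * L : ℕ) : ℝ) * q ≤ (a0 : ℝ) * q := by push_cast; linarith
      exact_mod_cast le_of_mul_le_mul_right this hqR
    · intro h
      have : ((m * L : ℕ) : ℝ) ≤ a0 := by exact_mod_cast h
      push_cast at this
      nlinarith
  by_cases h5 : v * L ≤ a0
  · have h6 : (v : ℝ) / q ≤ (a0 : ℝ) / (L * q) := (hcmp v).2 h5
    have h7 : Int.fract ((a0 : ℝ) / (L * q) - v / q) = (a0 : ℝ) / (L * q) - v / q := by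
      rw [Int.fract_eq_self]
      constructor <;> linarith
    rw [h7]
    by_cases h8 : a0 < (v + 1) * L
    · have h9 : a0 / L = v := by
        apply Nat.div_eq_of_lt_le
        · exact h5
        · exact h8
      rw [if_pos, if_pos (by rw [← h4, h9])]
      have h10 : ¬ ((v + 1 : ℕ) : ℝ) / q ≤ (a0 : ℝ) / (L * q) := by
        rw [hcmp]
        omega
      push_cast at h10
      rw [add_div] at h10
      linarith
    · have h9 : a0 / L ≠ v := by
        intro h10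
        apply h8
        rw [← h10]
        have := Nat.lt_succ_iff.2 (le_refl (a0 / L))
        calc a0 < (a0 / L + 1) * L := by
              have := Nat.lt_div_mul_add hL0 (a := a0)
              rw [add_mul, one_mul]
              exact this
          _ = _ := rfl
      rw [if_neg, if_neg (by rw [← h4]; exact h9)]
      have h10 : ((v + 1 : ℕ) : ℝ) / q ≤ (a0 : ℝ) / (L * q) := (hcmp (v + 1)).2 (by omega)
      push_cast at h10
      rw [add_div] at h10
      linarith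
  · have h6 : ¬ (v : ℝ) / q ≤ (a0 : ℝ) / (L * q) := fun h => h5 ((hcmp v).1 h)
    have h7 : Int.fract ((a0 : ℝ) / (L * q) - v / q) = (a0 : ℝ) / (L * q) - v / q + 1 := by
      rw [Int.fract_eq_iff]
      refine ⟨by linarith, by linarith, -1, ?_⟩
      push_cast
      ring
    rw [h7]
    have h9 : a0 / L ≠ v := by
      intro h10
      apply h5
      rw [← h10]
      exact Nat.div_mul_le_self a0 L
    rw [if_neg (by linarith), if_neg (by rw [← h4]; exact h9)]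

theorem Lam_sq (b l K : ℕ) (B : Finset ℕ) :
    Lam b l K B ^ 2 = 8 ^ (1 / 2 : ℝ) * (b : ℝ) ^ l *
      ((b : ℝ) ^ K * ∑ n ∈ range (2 * b ^ K), (r B n : ℝ) ^ 2) := by
  unfold Lam
  set E : ℝ := ∑ n ∈ range (2 * b ^ K), (r B n : ℝ) ^ 2 with hE
  have hE0 : 0 ≤ E := sum_nonneg fun n _ => sq_nonneg _
  rw [show 8 * ((b : ℝ) ^ (K + l)) ^ 2 * E ^ 2 = 8 * ((b : ℝ) ^ (K + l) * E) ^ 2 by ring,
    ← Real.rpow_natCast (_ ^ (1 / 4 : ℝ)) 2, ← Real.rpow_mul (by positivity),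
    Real.mul_rpow (by norm_num) (by positivity), ← Real.rpow_natCast ((b : ℝ) ^ (K + l) * E) 2,
    ← Real.rpow_mul (by positivity)]
  norm_num
  ring

/-- both ways: from the arcs to a bound for `#P` -/
theorem tail_arc_abs {b l : ℕ} (hb : 2 ≤ b) : ∃ c C : ℝ, 0 < c ∧ 0 < C ∧
    ∀ (u len u' len' : ℝ), 0 ≤ len → len ≤ 1 → 0 ≤ len' → len' ≤ 1 →
    ∀ (K : ℕ) (B : Finset ℕ) (P : Finset (ℕ × ℕ)), 1 ≤ K → B ⊆ range (b ^ K) → P ⊆ B ×ˢ B →
    ∀ t : ℝ, 0 ≤ t →
    (∀ p ∈ P, t * (K : ℝ) ^ (3 / 4 : ℝ) ≤ |∑ i ∈ range K,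
      ind u len (((p.1 : ℝ) + p.2) / (b : ℝ) ^ (i + l)) *
        ind u' len' ((p.1 : ℝ) / (b : ℝ) ^ (i + l)) - len * len' * K|) →
    (#P : ℝ) ≤ C * Real.exp (-(c * t ^ 4)) * Lam b l K B := by
  classical
  obtain ⟨c, C, hc, hC, h⟩ := tail_arc hb (Pool.Agent.Helper99.FP.RB_all hb l)
  refine ⟨c / 16, 3 * C + 1, by positivity, by positivity,
    fun u len u' len' hl0 hl1 hl0' hl1' K B P hKpos hB hP t ht hdev => ?_⟩
  have hL := Lam_nonneg b l K B
  rcases ht.eq_or_lt with ht0 | ht0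
  · rw [← ht0]
    have h1 := card_le_Lam (l := l) hb hB hP
    simp only [ne_eq, OfNat.ofNat_ne_zero, not_false_eq_true, zero_pow, mul_zero, neg_zero,
      Real.exp_zero, mul_one]
    nlinarith [mul_nonneg hC.le hL]
  rcases P.eq_empty_or_nonempty with hPe | ⟨p₀, hp₀⟩
  · subst hPe
    simp only [card_empty, Nat.cast_zero]
    positivity
  have hK0 : (0 : ℝ) < K := by exact_mod_cast hKpos
  -- the parameter
  obtain ⟨ε, hε⟩ : ∃ ε : ℝ, ε = t * (K : ℝ) ^ (-(1 / 4) : ℝ) := ⟨_, rfl⟩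
  have hε0 : 0 < ε := by rw [hε]; positivity
  have hεK : ε * K = t * (K : ℝ) ^ (3 / 4 : ℝ) := by
    rw [hε, mul_assoc]
    congr 1
    nth_rewrite 2 [← Real.rpow_one (K : ℝ)]
    rw [← Real.rpow_add hK0]
    norm_num
  have hε4 : ε ^ 4 * K = t ^ 4 := by
    rw [hε, mul_pow, ← Real.rpow_natCast ((K : ℝ) ^ (-(1 / 4) : ℝ)) 4, ← Real.rpow_mul hK0.le]
    norm_num
    rw [Real.rpow_neg_one]
    field_simp
  -- the sum is between 0 and K
  have hbd : ∀ p : ℕ × ℕ, 0 ≤ ∑ i ∈ range K,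
      ind u len (((p.1 : ℝ) + p.2) / (b : ℝ) ^ (i + l)) *
        ind u' len' ((p.1 : ℝ) / (b : ℝ) ^ (i + l)) ∧ ∑ i ∈ range K,
      ind u len (((p.1 : ℝ) + p.2) / (b : ℝ) ^ (i + l)) *
        ind u' len' ((p.1 : ℝ) / (b : ℝ) ^ (i + l)) ≤ K := by
    intro p
    constructor
    · exact sum_nonneg fun i _ => mul_nonneg (ind_nonneg _ _ _) (ind_nonneg _ _ _)
    · calc _ ≤ ∑ _i ∈ range K, (1 : ℝ) := sum_le_sum fun i _ =>
            mul_le_one₀ (ind_le_one _ _ _) (ind_nonneg _ _ _) (ind_le_one _ _ _)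
        _ = K := by simp
  have hll0 : 0 ≤ len * len' := mul_nonneg hl0 hl0'
  have hll1 : len * len' ≤ 1 := mul_le_one₀ hl1 hl0' hl1'
  have hε1 : ε ≤ 1 := by
    have h1 := hdev p₀ hp₀
    have h2 := hbd p₀
    rw [← hεK] at h1
    have h3 : |∑ i ∈ range K, ind u len (((p₀.1 : ℝ) + p₀.2) / (b : ℝ) ^ (i + l)) *
        ind u' len' ((p₀.1 : ℝ) / (b : ℝ) ^ (i + l)) - len * len' * K| ≤ K := by
      rw [abs_le]
      constructor <;> nlinarith
    have h4 : ε * K ≤ 1 * K := by linarith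
    exact le_of_mul_le_mul_right h4 hK0
  set P1 : Finset (ℕ × ℕ) := P.filter fun p => (len * len' + ε) * K ≤ ∑ i ∈ range K,
      ind u len (((p.1 : ℝ) + p.2) / (b : ℝ) ^ (i + l)) *
        ind u' len' ((p.1 : ℝ) / (b : ℝ) ^ (i + l)) with hP1
  set P2 : Finset (ℕ × ℕ) := P.filter fun p => (1 * (1 - len') + ε / 2) * K ≤ ∑ i ∈ range K,
      ind 0 1 (((p.1 : ℝ) + p.2) / (b : ℝ) ^ (i + l)) *
        ind (u' + len') (1 - len') ((p.1 : ℝ) / (b : ℝ) ^ (i + l)) with hP2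
  set P3 : Finset (ℕ × ℕ) := P.filter fun p => ((1 - len) * len' + ε / 2) * K ≤ ∑ i ∈ range K,
      ind (u + len) (1 - len) (((p.1 : ℝ) + p.2) / (b : ℝ) ^ (i + l)) *
        ind u' len' ((p.1 : ℝ) / (b : ℝ) ^ (i + l)) with hP3
  have hcov : P ⊆ P1 ∪ (P2 ∪ P3) := by
    intro p hp
    rw [mem_union, mem_union, mem_filter, mem_filter, mem_filter]
    by_contra hcon
    push Not at hcon
    obtain ⟨h1, h2, h3⟩ := hcon
    have h1' := h1 hp
    have h2' := h2 hp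
    have h3' := h3 hp
    have h4 := hdev p hp
    rw [← hεK] at h4
    have e2 : ∑ i ∈ range K, ind 0 1 (((p.1 : ℝ) + p.2) / (b : ℝ) ^ (i + l)) *
        ind (u' + len') (1 - len') ((p.1 : ℝ) / (b : ℝ) ^ (i + l)) =
        K - ∑ i ∈ range K, ind u' len' ((p.1 : ℝ) / (b : ℝ) ^ (i + l)) := by
      rw [show (K : ℝ) = ∑ _i ∈ range K, (1 : ℝ) by simp, ← sum_sub_distrib]
      refine sum_congr rfl fun i _ => ?_
      rw [ind_full, ind_compl hl0' hl1', one_mul]
    have e3 : ∑ i ∈ range K, ind (u + len) (1 - len) (((p.1 : ℝ) + p.2) / (b : ℝ) ^ (i + l)) *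
        ind u' len' ((p.1 : ℝ) / (b : ℝ) ^ (i + l)) =
        ∑ i ∈ range K, ind u' len' ((p.1 : ℝ) / (b : ℝ) ^ (i + l)) - ∑ i ∈ range K,
      ind u len (((p.1 : ℝ) + p.2) / (b : ℝ) ^ (i + l)) *
        ind u' len' ((p.1 : ℝ) / (b : ℝ) ^ (i + l)) := by
      rw [← sum_sub_distrib]
      refine sum_congr rfl fun i _ => ?_
      rw [ind_compl hl0 hl1]
      ring
    rw [e2] at h2'
    rw [e3] at h3'
    rcases le_abs.1 h4 with h5 | h5 <;> nlinarith
  have b1 := h u len u' len' hl0 hl1 hl0' hl1' K B P1 hB ((filter_subset _ _).trans hP) ε hε0 hε1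
    (fun p hp => (mem_filter.1 hp).2)
  have b2 := h 0 1 (u' + len') (1 - len') zero_le_one le_rfl (by linarith) (by linarith) K B P2 hB
    ((filter_subset _ _).trans hP) (ε / 2) (by linarith) (by linarith)
    (fun p hp => (mem_filter.1 hp).2)
  have b3 := h (u + len) (1 - len) u' len' (by linarith) (by linarith) hl0' hl1' K B P3 hB
    ((filter_subset _ _).trans hP) (ε / 2) (by linarith) (by linarith)
    (fun p hp => (mem_filter.1 hp).2)
  have e1 : Real.exp (-(c * (ε ^ 4 * K))) ≤ Real.exp (-(c / 16 * t ^ 4)) := by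
    rw [hε4]
    apply Real.exp_le_exp.2
    have : 0 ≤ c * t ^ 4 := by positivity
    linarith
  have e2 : Real.exp (-(c * ((ε / 2) ^ 4 * K))) = Real.exp (-(c / 16 * t ^ 4)) := by
    rw [← hε4]
    congr 1
    ring
  rw [e2] at b2 b3
  have b1' : (#P1 : ℝ) ≤ C * Real.exp (-(c / 16 * t ^ 4)) * Lam b l K B := by
    refine b1.trans ?_
    gcongr
  have h6 : (#P : ℝ) ≤ #P1 + (#P2 + #P3) := by
    exact_mod_cast (card_le_card hcov).trans ((card_union_le _ _).trans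
      (Nat.add_le_add_left (card_union_le _ _) _))
  have h7 : 0 ≤ Real.exp (-(c / 16 * t ^ 4)) * Lam b l K B := by positivity
  calc (#P : ℝ) ≤ 3 * (C * Real.exp (-(c / 16 * t ^ 4)) * Lam b l K B) := by linarith
    _ ≤ (3 * C + 1) * Real.exp (-(c / 16 * t ^ 4)) * Lam b l K B := by nlinarith

/-- FOURTH POWER TAILS for pairs -/
theorem tails_pairs (b l : ℕ) (hb : 2 ≤ b) : ∃ c C : ℝ, 0 < c ∧ 0 < C ∧
    ∀ (u v K : ℕ) (B : Finset ℕ) (P : Finset (ℕ × ℕ)) (t : ℝ), u < b ^ l → v < b ^ l → 1 ≤ K →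
      B ⊆ range (b ^ K) → P ⊆ B ×ˢ B → 0 ≤ t →
      (∀ p ∈ P, t * (K : ℝ) ^ (3 / 4 : ℝ) ≤
        |(cnt2 b l u v K (p.1 + p.2) p.1 : ℝ) - K / (b : ℝ) ^ (2 * l)|) →
      (#P : ℝ) ^ 2 ≤ C * Real.exp (-(c * t ^ 4)) *
        ((b : ℝ) ^ K * ∑ n ∈ range (2 * b ^ K), (r B n : ℝ) ^ 2) := by
  obtain ⟨c, C, hc, hC, h⟩ := tail_arc_abs (b := b) (l := l) hb
  have hb0 : (0 : ℝ) < b := by exact_mod_cast (by omega : 0 < b)
  refine ⟨2 * c, C ^ 2 * (8 ^ (1 / 2 : ℝ) * (b : ℝ) ^ l), by positivity, by positivity,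
    fun u v K B P t hu hv hK hB hP ht hdev => ?_⟩
  have hlen0 : (0 : ℝ) ≤ 1 / (b : ℝ) ^ l := by positivity
  have hlen1 : 1 / (b : ℝ) ^ l ≤ 1 := by
    rw [div_le_one (by positivity)]
    exact one_le_pow₀ (by exact_mod_cast (by omega : 1 ≤ b))
  have h1 := h (u / (b : ℝ) ^ l) (1 / (b : ℝ) ^ l) (v / (b : ℝ) ^ l) (1 / (b : ℝ) ^ l)
    hlen0 hlen1 hlen0 hlen1 K B P hK hB hP t ht (by
      intro p hp
      refine (hdev p hp).trans (le_of_eq ?_)
      congr 1
      rw [cnt2, card_filter]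
      push_cast
      congr 1
      · refine sum_congr rfl fun i _ => ?_
        have e1 := ind_digit hb l i u hu (p.1 + p.2)
        have e2 := ind_digit hb l i v hv p.1
        push_cast at e1
        rw [e1, e2]
        by_cases h3 : (p.1 + p.2) / b ^ i % b ^ l = u <;>
          by_cases h4 : p.1 / b ^ i % b ^ l = v <;> simp [h3, h4]
      · rw [two_mul, pow_add]
        field_simp)
  calc (#P : ℝ) ^ 2 ≤ (C * Real.exp (-(c * t ^ 4)) * Lam b l K B) ^ 2 :=
        pow_le_pow_left₀ (Nat.cast_nonneg _) h1 2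
    _ = C ^ 2 * (Real.exp (-(c * t ^ 4))) ^ 2 * Lam b l K B ^ 2 := by ring
    _ = _ := by
        rw [Lam_sq, ← Real.exp_nat_mul]
        push_cast
        rw [show (2 : ℝ) * -(c * t ^ 4) = -(2 * c * t ^ 4) by ring]
        ring

/-- FOURTH POWER TAILS for elements -/
theorem tails_elements (b l : ℕ) (hb : 2 ≤ b) : ∃ c C : ℝ, 0 < c ∧ 0 < C ∧
    ∀ (v K : ℕ) (B : Finset ℕ) (t : ℝ), v < b ^ l → 1 ≤ K →
      B ⊆ range (b ^ K) → 0 ≤ t →
      (∀ a ∈ B, t * (K : ℝ) ^ (3 / 4 : ℝ) ≤ |(cnt b l v K a : ℝ) - K / (b : ℝ) ^ l|) →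
      (#B : ℝ) ^ 4 ≤ C * Real.exp (-(c * t ^ 4)) *
        ((b : ℝ) ^ K * ∑ n ∈ range (2 * b ^ K), (r B n : ℝ) ^ 2) := by
  obtain ⟨c, C, hc, hC, h⟩ := tail_arc_abs (b := b) (l := l) hb
  have hb0 : (0 : ℝ) < b := by exact_mod_cast (by omega : 0 < b)
  refine ⟨2 * c, C ^ 2 * (8 ^ (1 / 2 : ℝ) * (b : ℝ) ^ l), by positivity, by positivity,
    fun v K B t hv hK hB ht hdev => ?_⟩
  have hlen0 : (0 : ℝ) ≤ 1 / (b : ℝ) ^ l := by positivity
  have hlen1 : 1 / (b : ℝ) ^ l ≤ 1 := by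
    rw [div_le_one (by positivity)]
    exact one_le_pow₀ (by exact_mod_cast (by omega : 1 ≤ b))
  have h1 := h 0 1 (v / (b : ℝ) ^ l) (1 / (b : ℝ) ^ l)
    zero_le_one le_rfl hlen0 hlen1 K B (B ×ˢ B) hK hB (Finset.Subset.refl _) t ht (by
      intro p hp
      refine (hdev p.1 (mem_product.1 hp).1).trans (le_of_eq ?_)
      congr 1
      rw [cnt, card_filter]
      push_cast
      congr 1
      · refine sum_congr rfl fun i _ => ?_
        rw [ind_digit hb l i v hv p.1, ind_full, one_mul]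
      · field_simp)
  rw [card_product] at h1
  push_cast at h1
  calc (#B : ℝ) ^ 4 = ((#B : ℝ) * #B) ^ 2 := by ring
    _ ≤ (C * Real.exp (-(c * t ^ 4)) * Lam b l K B) ^ 2 :=
        pow_le_pow_left₀ (by positivity) h1 2
    _ = C ^ 2 * (Real.exp (-(c * t ^ 4))) ^ 2 * Lam b l K B ^ 2 := by ring
    _ = _ := by
        rw [Lam_sq, ← Real.exp_nat_mul]
        push_cast
        rw [show (2 : ℝ) * -(c * t ^ 4) = -(2 * c * t ^ 4) by ring]
        ring

end Pool.Agent.Helper5.FP
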