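import Pool.Agent.Helper5.FP.Defs

/-!
One piece: the choice of the weight.
-/

set_option autoImplicit false

namespace Pool.Agent.Helper5.FP

open Finset
open Pool.Agent.Helper16.NM (r)
open Pool.Agent.Helper7.SC (e)

theorem Lam_nonneg (b l K : ℕ) (B : Finset ℕ) : 0 ≤ Lam b l K B := by
  unfold Lam
  positivity

theorem mem_pos {q s K i : ℕ} : i ∈ pos q s K ↔ (q ≤ i ∧ i < K) ∧ i % q = s := by
  rw [pos, mem_filter, mem_Ico]

theorem card_pos (q s K : ℕ) (hq : 1 ≤ q) : (#(pos q s K) : ℝ) ≤ K / q := by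
  have h1 : #(pos q s K) ≤ K / q := by
    have h2 : pos q s K ⊆ (range (K / q)).image fun j => q * (j + 1) + s := by
      intro i hi
      obtain ⟨⟨h3, h4⟩, h5⟩ := mem_pos.1 hi
      rw [mem_image]
      refine ⟨i / q - 1, ?_, ?_⟩
      · rw [mem_range]
        have h6 : 1 ≤ i / q := (Nat.one_le_div_iff hq).2 h3
        have h7 : i / q ≤ K / q := Nat.div_le_div_right h4.le
        omega
      · have h6 : 1 ≤ i / q := (Nat.one_le_div_iff hq).2 h3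
        rw [Nat.sub_add_cancel h6, ← h5]
        exact Nat.div_add_mod i q
    refine (card_le_card h2).trans (card_image_le.trans ?_)
    rw [card_range]
  calc (#(pos q s K) : ℝ) ≤ ((K / q : ℕ) : ℝ) := by exact_mod_cast h1
    _ ≤ K / q := Nat.cast_div_le

/-- splitting into the classes of positions -/
theorem sum_pos (q K : ℕ) (hq : 1 ≤ q) (g : ℕ → ℝ) (hg : ∀ i, |g i| ≤ 1) :
    ∑ i ∈ range K, g i ≤ q + ∑ s ∈ range q, ∑ i ∈ pos q s K, g i := by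
  have h1 : ∑ s ∈ range q, ∑ i ∈ pos q s K, g i = ∑ i ∈ Ico q K, g i := by
    unfold pos
    rw [Finset.sum_fiberwise_of_maps_to]
    intro i _
    exact mem_range.2 (Nat.mod_lt _ hq)
  rw [h1]
  rcases le_total q K with h | h
  · rw [← Finset.sum_range_add_sum_Ico g h]
    have : ∑ i ∈ range q, g i ≤ q := by
      calc ∑ i ∈ range q, g i ≤ ∑ _i ∈ range q, (1 : ℝ) :=
            sum_le_sum fun i _ => (le_abs_self _).trans (hg i)
        _ = q := by simp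
    linarith
  · rw [Ico_eq_empty (by omega), sum_empty, add_zero]
    calc ∑ i ∈ range K, g i ≤ ∑ _i ∈ range K, (1 : ℝ) :=
          sum_le_sum fun i _ => (le_abs_self _).trans (hg i)
      _ = K := by simp
      _ ≤ q := by exact_mod_cast h

/-- one class of positions -/
theorem one_class {b l D q : ℕ} {T : ℤ → ℤ → ℂ} {f : ℝ → ℝ → ℝ} {W η : ℝ} {s K : ℕ}
    {B : Finset ℕ} {P : Finset (ℕ × ℕ)} (hq : 1 ≤ q) (hW : 0 < W) (hη : 0 < η) (hη1 : η ≤ 1)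
    (h : ∀ δ X : ℝ, 0 ≤ δ → δ ≤ 1 / 2 → (∀ p ∈ P, X ≤ ∑ i ∈ pos q s K,
      f (((p.1 : ℝ) + p.2) / (b : ℝ) ^ (i + l)) ((p.1 : ℝ) / (b : ℝ) ^ (i + l))) →
      #P * Real.exp (δ * X - δ ^ 2 * #(pos q s K)) ≤
        (1 + δ ^ (4 / 3 : ℝ) * W) ^ ((3 / 4 : ℝ) * #(pos q s K)) * Lam b l K B)
    (hP : ∀ p ∈ P, η * K / (2 * q) ≤ ∑ i ∈ pos q s K,
      f (((p.1 : ℝ) + p.2) / (b : ℝ) ^ (i + l)) ((p.1 : ℝ) / (b : ℝ) ^ (i + l))) :
    (#P : ℝ) ≤ Real.exp (-(K / q * min (η ^ 2 / 32) (η ^ 4 / (864 * W ^ 3)))) * Lam b l K B := by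
  have hq' : (0 : ℝ) < q := by exact_mod_cast hq
  have hK : (0 : ℝ) ≤ K := Nat.cast_nonneg _
  set δ : ℝ := min (η / 8) ((η / (6 * W)) ^ 3) with hδ
  have hδ0 : 0 < δ := lt_min (by positivity) (by positivity)
  have hδ1 : δ ≤ η / 8 := min_le_left _ _
  have hδ2 : δ ≤ (η / (6 * W)) ^ 3 := min_le_right _ _
  have hδ3 : δ ≤ 1 / 2 := by linarith
  have h1 := h δ (η * K / (2 * q)) hδ0.le hδ3 hP
  have hn := card_pos q s K hq
  set n : ℝ := (#(pos q s K) : ℝ) with hnd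
  have hn0 : 0 ≤ n := Nat.cast_nonneg _
  have hL := Lam_nonneg b l K B
  -- the power
  have h43 : δ ^ (4 / 3 : ℝ) * W ≤ δ * η / 6 := by
    have e1 : δ ^ (4 / 3 : ℝ) = δ * δ ^ (1 / 3 : ℝ) := by
      rw [show (4 / 3 : ℝ) = 1 + 1 / 3 by norm_num, Real.rpow_add hδ0, Real.rpow_one]
    have e2 : δ ^ (1 / 3 : ℝ) ≤ η / (6 * W) := by
      calc δ ^ (1 / 3 : ℝ) ≤ ((η / (6 * W)) ^ 3) ^ (1 / 3 : ℝ) :=
            Real.rpow_le_rpow hδ0.le hδ2 (by norm_num)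
        _ = η / (6 * W) := by
            rw [← Real.rpow_natCast, ← Real.rpow_mul (by positivity)]
            norm_num
    calc δ ^ (4 / 3 : ℝ) * W = δ * W * δ ^ (1 / 3 : ℝ) := by rw [e1]; ring
      _ ≤ δ * W * (η / (6 * W)) := mul_le_mul_of_nonneg_left e2 (by positivity)
      _ = δ * η / 6 := by field_simp
  have h2 : (1 + δ ^ (4 / 3 : ℝ) * W) ^ ((3 / 4 : ℝ) * n) ≤ Real.exp (K / q * (δ * η / 8)) := by
    have e0 : 0 ≤ δ ^ (4 / 3 : ℝ) * W := by positivity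
    calc (1 + δ ^ (4 / 3 : ℝ) * W) ^ ((3 / 4 : ℝ) * n)
        ≤ (Real.exp (δ ^ (4 / 3 : ℝ) * W)) ^ ((3 / 4 : ℝ) * n) := by
          apply Real.rpow_le_rpow (by positivity) _ (by positivity)
          rw [add_comm]
          exact Real.add_one_le_exp _
      _ = Real.exp (δ ^ (4 / 3 : ℝ) * W * ((3 / 4 : ℝ) * n)) := by rw [← Real.exp_mul]
      _ ≤ Real.exp (K / q * (δ * η / 8)) := by
          apply Real.exp_le_exp.2
          calc δ ^ (4 / 3 : ℝ) * W * ((3 / 4 : ℝ) * n) ≤ (δ * η / 6) * ((3 / 4 : ℝ) * (K / q)) := by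
                gcongr
            _ = K / q * (δ * η / 8) := by ring
  have h3 : K / q * (3 / 8 * (δ * η)) ≤ δ * (η * K / (2 * q)) - δ ^ 2 * n := by
    have e1 : δ ^ 2 * n ≤ δ * (η / 8) * (K / q) := by
      rw [sq]
      gcongr
    have e2 : δ * (η * K / (2 * q)) = K / q * (δ * η / 2) := by
      field_simp
    rw [e2]
    nlinarith [e1]
  have h4 : (#P : ℝ) * Real.exp (K / q * (3 / 8 * (δ * η))) ≤
      Real.exp (K / q * (δ * η / 8)) * Lam b l K B :=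
    (mul_le_mul_of_nonneg_left (Real.exp_le_exp.2 h3) (Nat.cast_nonneg _)).trans
      (h1.trans (mul_le_mul_of_nonneg_right h2 hL))
  have h5 : (#P : ℝ) ≤ Real.exp (-(K / q * (δ * η / 4))) * Lam b l K B := by
    have e1 : Real.exp (K / q * (δ * η / 8)) =
        Real.exp (-(K / q * (δ * η / 4))) * Real.exp (K / q * (3 / 8 * (δ * η))) := by
      rw [← Real.exp_add]
      congr 1
      ring
    rw [e1, mul_right_comm] at h4
    exact le_of_mul_le_mul_right h4 (Real.exp_pos _)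
  refine h5.trans (mul_le_mul_of_nonneg_right (Real.exp_le_exp.2 (neg_le_neg ?_)) hL)
  apply mul_le_mul_of_nonneg_left _ (by positivity)
  rcases min_choice (η / 8) ((η / (6 * W)) ^ 3) with hm | hm
  · rw [hδ, hm]
    refine (min_le_left _ _).trans (le_of_eq ?_)
    ring
  · rw [hδ, hm]
    refine (min_le_right _ _).trans (le_of_eq ?_)
    field_simp
    ring

/-- one piece -/
theorem one_piece {b l : ℕ} (hRB : RB b l) {D q : ℕ} {T : ℤ → ℤ → ℂ} {f : ℝ → ℝ → ℝ} {W η : ℝ}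
    (hq : 1 ≤ q) (hD : 4 * D < b ^ q) (h0 : T 0 0 = 0)
    (hT : ∀ h h' : ℤ, (D : ℤ) < |h| ∨ (D : ℤ) < |h'| → T h h' = 0)
    (hf : ∀ y y' : ℝ, (f y y' : ℂ) = ∑ h ∈ Icc (-(D : ℤ)) D, ∑ h' ∈ Icc (-(D : ℤ)) D,
      T h h' * e (h * y + h' * y'))
    (hf1 : ∀ y y', |f y y'| ≤ 1) (hW : 0 < W)
    (hm : ∑ h ∈ Icc (-(D : ℤ)) D, ∑ h' ∈ Icc (-(D : ℤ)) D, ‖T h h'‖ ^ (4 / 3 : ℝ) ≤ W)
    (hη : 0 < η) (hη1 : η ≤ 1) {K : ℕ} {B : Finset ℕ} {P : Finset (ℕ × ℕ)}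
    (hB : B ⊆ range (b ^ K)) (hP : P ⊆ B ×ˢ B) (hqK : (q : ℝ) ≤ η * K / 2)
    (hdev : ∀ p ∈ P, η * K ≤ ∑ i ∈ range K,
      f (((p.1 : ℝ) + p.2) / (b : ℝ) ^ (i + l)) ((p.1 : ℝ) / (b : ℝ) ^ (i + l))) :
    (#P : ℝ) ≤ q * Real.exp (-(K / q * min (η ^ 2 / 32) (η ^ 4 / (864 * W ^ 3)))) *
      Lam b l K B := by
  classical
  have hq' : (0 : ℝ) < q := by exact_mod_cast hq
  set Q : ℕ → Finset (ℕ × ℕ) := fun s => P.filter fun p => η * K / (2 * q) ≤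
    ∑ i ∈ pos q s K, f (((p.1 : ℝ) + p.2) / (b : ℝ) ^ (i + l)) ((p.1 : ℝ) / (b : ℝ) ^ (i + l))
    with hQ
  have h1 : P ⊆ (range q).biUnion Q := by
    intro p hp
    rw [mem_biUnion]
    by_contra hcon
    push Not at hcon
    have h2 : ∀ s ∈ range q, ∑ i ∈ pos q s K,
        f (((p.1 : ℝ) + p.2) / (b : ℝ) ^ (i + l)) ((p.1 : ℝ) / (b : ℝ) ^ (i + l)) <
        η * K / (2 * q) := by
      intro s hs
      by_contra h3
      exact hcon s hs (mem_filter.2 ⟨hp, not_lt.1 h3⟩)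
    have h4 := sum_pos q K hq (fun i => f (((p.1 : ℝ) + p.2) / (b : ℝ) ^ (i + l))
      ((p.1 : ℝ) / (b : ℝ) ^ (i + l))) (fun i => hf1 _ _)
    have h5 := sum_lt_sum_of_nonempty (nonempty_range_iff.2 (by omega : q ≠ 0)) h2
    rw [sum_const, card_range, nsmul_eq_mul] at h5
    have h6 : (q : ℝ) * (η * K / (2 * q)) = η * K / 2 := by field_simp
    rw [h6] at h5
    have h7 := hdev p hp
    linarith
  have h2 : ∀ s ∈ range q, (#(Q s) : ℝ) ≤
      Real.exp (-(K / q * min (η ^ 2 / 32) (η ^ 4 / (864 * W ^ 3)))) * Lam b l K B := by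
    intro s _
    apply one_class (D := D) (T := T) (s := s) hq hW hη hη1 _
      (fun p hp => (mem_filter.1 hp).2)
    intro δ X hδ0 hδ1 hX
    exact hRB D q T f W hq hD h0 hT hf hf1 hm s K B (Q s) hB
      ((filter_subset _ _).trans hP) δ X hδ0 hδ1 hX
  calc (#P : ℝ) ≤ ∑ s ∈ range q, (#(Q s) : ℝ) := by
        exact_mod_cast (card_le_card h1).trans card_biUnion_le
    _ ≤ ∑ _s ∈ range q, Real.exp (-(K / q * min (η ^ 2 / 32) (η ^ 4 / (864 * W ^ 3)))) *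
          Lam b l K B := sum_le_sum h2
    _ = _ := by rw [sum_const, card_range, nsmul_eq_mul, mul_assoc]

end Pool.Agent.Helper5.FP
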