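import Pool.Agent.Helper5.FP.Cand
import Pool.Agent.Helper16.NM.V1

/-!
# Power growth of the representation function for sets with many elements that are not normal
-/

set_option autoImplicit false

namespace Pool.Agent.Helper5.FP.Cand

open Pool.Agent.Helper5.FP.Text Filter

theorem rep_le (A : Set ℕ) (n : ℕ) : rep A n ≤ n + 1 :=
  Pool.Agent.Helper16.NM.rep_le A n

/-- a special case of the stronger form of the problem, with a power of `n` -/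
theorem power (b l : ℕ) (hb : 2 ≤ b) {δ : ℝ} (hδ : 0 < δ) : ∃ c : ℝ, 0 < c ∧ ∀ A : Set ℕ,
    (∃ᶠ K : ℕ in atTop, ((b : ℝ) ^ K) ^ (1 / 2 - c) ≤
      {a | a ∈ A ∧ a < b ^ K ∧ ¬ Normal b l δ K a}.ncard) →
    ∃ᶠ n : ℕ in atTop, (n : ℝ) ^ c ≤ rep A n := by
  obtain ⟨c₀, hc₀, h⟩ := main b l hb
  have hη : 0 < c₀ * δ ^ 4 := by positivity
  set c : ℝ := c₀ * δ ^ 4 / 4 with hc
  have hcpos : 0 < c := by positivity
  refine ⟨c, hcpos, fun A hA => ?_⟩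
  have hb' : (1 : ℝ) < b := by exact_mod_cast hb
  have hxt : Tendsto (fun K : ℕ => (b : ℝ) ^ K) atTop atTop := tendsto_pow_atTop_atTop_of_one_lt hb'
  have hxc : Tendsto (fun K : ℕ => ((b : ℝ) ^ K) ^ c) atTop atTop :=
    (tendsto_rpow_atTop hcpos).comp hxt
  rw [frequently_atTop]
  intro N
  have h1 : ∀ᶠ K : ℕ in atTop, (2 : ℝ) ^ c / c₀ ≤ ((b : ℝ) ^ K) ^ c := hxc.eventually_ge_atTop _
  have h2 : ∀ᶠ K : ℕ in atTop, ((N : ℝ) + 1) / (2 : ℝ) ^ c ≤ ((b : ℝ) ^ K) ^ c :=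
    hxc.eventually_ge_atTop _
  obtain ⟨K, hK, h1, h2, h3⟩ := (hA.and_eventually
    (h1.and (h2.and (eventually_ge_atTop 1)))).exists
  obtain ⟨-, -, n, hn, h4, -⟩ := h A K δ h3 hδ.le
  set x : ℝ := (b : ℝ) ^ K with hx
  have hx0 : 0 < x := by positivity
  set D : ℝ := ({a | a ∈ A ∧ a < b ^ K ∧ ¬ Normal b l δ K a}.ncard : ℝ) with hD
  have h5 : c₀ * (x ^ c * x ^ c) ≤ rep A n := by
    refine le_trans ?_ h4
    have e1 : x ^ c * x ^ c = (x ^ (1 / 2 - c)) ^ 2 * x ^ (c₀ * δ ^ 4 - 1) := by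
      rw [← Real.rpow_natCast (x ^ (1 / 2 - c)) 2, ← Real.rpow_mul hx0.le,
        ← Real.rpow_add hx0, ← Real.rpow_add hx0]
      congr 1
      rw [hc]
      push_cast
      ring
    rw [e1, mul_assoc]
    gcongr
  have h6 : (2 : ℝ) ^ c * x ^ c ≤ rep A n := by
    refine le_trans ?_ h5
    rw [div_le_iff₀ hc₀] at h1
    calc (2 : ℝ) ^ c * x ^ c ≤ (x ^ c * c₀) * x ^ c :=
          mul_le_mul_of_nonneg_right h1 (by positivity)
      _ = _ := by ring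
  refine ⟨n, ?_, ?_⟩
  · rw [div_le_iff₀ (by positivity)] at h2
    have h7 : ((N : ℝ) + 1) ≤ (n : ℝ) + 1 := by
      refine (h2.trans ?_).trans (by exact_mod_cast rep_le A n : (rep A n : ℝ) ≤ (n : ℝ) + 1)
      rw [mul_comm]
      exact h6
    have h8 : (N : ℝ) ≤ n := by linarith
    exact_mod_cast h8
  · refine le_trans ?_ h6
    rw [← Real.mul_rpow (by norm_num) hx0.le]
    refine Real.rpow_le_rpow (Nat.cast_nonneg _) ?_ hcpos.le
    have : (n : ℝ) ≤ ((2 * b ^ K : ℕ) : ℝ) := by exact_mod_cast hn.le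
    rw [hx]
    push_cast at this
    exact this

/-- a special case of the stronger form of the problem, with a power of `n` and the exact
dependence on `δ` -/
theorem power_uniform (b l : ℕ) (hb : 2 ≤ b) : ∃ c : ℝ, 0 < c ∧ ∀ δ : ℝ, 0 < δ → ∀ A : Set ℕ,
    (∃ᶠ K : ℕ in atTop, ((b : ℝ) ^ K) ^ (1 / 2 - c * δ ^ 4) ≤
      {a | a ∈ A ∧ a < b ^ K ∧ ¬ Normal b l δ K a}.ncard) →
    ∃ᶠ n : ℕ in atTop, (n : ℝ) ^ (c * δ ^ 4) ≤ rep A n := by
  obtain ⟨c₀, hc₀, h⟩ := main b l hb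
  refine ⟨c₀ / 4, by positivity, fun δ hδ A hA => ?_⟩
  have hη : 0 < c₀ * δ ^ 4 := by positivity
  rw [show c₀ / 4 * δ ^ 4 = c₀ * δ ^ 4 / 4 by ring] at hA ⊢
  set c : ℝ := c₀ * δ ^ 4 / 4 with hc
  have hcpos : 0 < c := by positivity
  have hb' : (1 : ℝ) < b := by exact_mod_cast hb
  have hxt : Tendsto (fun K : ℕ => (b : ℝ) ^ K) atTop atTop := tendsto_pow_atTop_atTop_of_one_lt hb'
  have hxc : Tendsto (fun K : ℕ => ((b : ℝ) ^ K) ^ c) atTop atTop :=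
    (tendsto_rpow_atTop hcpos).comp hxt
  rw [frequently_atTop]
  intro N
  have h1 : ∀ᶠ K : ℕ in atTop, (2 : ℝ) ^ c / c₀ ≤ ((b : ℝ) ^ K) ^ c := hxc.eventually_ge_atTop _
  have h2 : ∀ᶠ K : ℕ in atTop, ((N : ℝ) + 1) / (2 : ℝ) ^ c ≤ ((b : ℝ) ^ K) ^ c :=
    hxc.eventually_ge_atTop _
  obtain ⟨K, hK, h1, h2, h3⟩ := (hA.and_eventually
    (h1.and (h2.and (eventually_ge_atTop 1)))).exists
  obtain ⟨-, -, n, hn, h4, -⟩ := h A K δ h3 hδ.le
  set x : ℝ := (b : ℝ) ^ K with hx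
  have hx0 : 0 < x := by positivity
  set D : ℝ := ({a | a ∈ A ∧ a < b ^ K ∧ ¬ Normal b l δ K a}.ncard : ℝ) with hD
  have h5 : c₀ * (x ^ c * x ^ c) ≤ rep A n := by
    refine le_trans ?_ h4
    have e1 : x ^ c * x ^ c = (x ^ (1 / 2 - c)) ^ 2 * x ^ (c₀ * δ ^ 4 - 1) := by
      rw [← Real.rpow_natCast (x ^ (1 / 2 - c)) 2, ← Real.rpow_mul hx0.le,
        ← Real.rpow_add hx0, ← Real.rpow_add hx0]
      congr 1
      rw [hc]
      push_cast
      ring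
    rw [e1, mul_assoc]
    gcongr
  have h6 : (2 : ℝ) ^ c * x ^ c ≤ rep A n := by
    refine le_trans ?_ h5
    rw [div_le_iff₀ hc₀] at h1
    calc (2 : ℝ) ^ c * x ^ c ≤ (x ^ c * c₀) * x ^ c :=
          mul_le_mul_of_nonneg_right h1 (by positivity)
      _ = _ := by ring
  refine ⟨n, ?_, ?_⟩
  · rw [div_le_iff₀ (by positivity)] at h2
    have h7 : ((N : ℝ) + 1) ≤ (n : ℝ) + 1 := by
      refine (h2.trans ?_).trans (by exact_mod_cast rep_le A n : (rep A n : ℝ) ≤ (n : ℝ) + 1)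
      rw [mul_comm]
      exact h6
    have h8 : (N : ℝ) ≤ n := by linarith
    exact_mod_cast h8
  · refine le_trans ?_ h6
    rw [← Real.mul_rpow (by norm_num) hx0.le]
    refine Real.rpow_le_rpow (Nat.cast_nonneg _) ?_ hcpos.le
    have : (n : ℝ) ≤ ((2 * b ^ K : ℕ) : ℝ) := by exact_mod_cast hn.le
    rw [hx]
    push_cast at this
    exact this

end Pool.Agent.Helper5.FP.Cand
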