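import Pool.Agent.Helper5.FP.Cand

/-!
# The fourth power is exact, delta form
-/

set_option autoImplicit false

namespace Pool.Agent.Helper5.FP.Cand

open Pool.Agent.Helper5.FP.Text

theorem sharp_delta : ∃ c C : ℝ, 0 < c ∧ ∀ (K : ℕ) (δ : ℝ), 0 ≤ δ → δ ≤ c →
    ∃ B : Finset ℕ, (∀ a ∈ B, a < 2 ^ K ∧ (1 / 2 + δ) * K ≤ blocks 2 1 0 K a) ∧
      c * ((2 : ℝ) ^ K) ^ (1 / 2 - C * δ ^ 4) ≤ B.card ∧
      ∑ n ∈ Finset.range (2 * 2 ^ K), (rep B n : ℝ) ^ 2 ≤ C * 2 ^ K := by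
  obtain ⟨c, C, hc, h⟩ := sharp
  refine ⟨c, max (C / Real.log 2) C, hc, fun K δ h0 h1 => ?_⟩
  have hK : (0 : ℝ) ≤ (K : ℝ) ^ (1 / 4 : ℝ) := by positivity
  obtain ⟨B, hB, h2, h3⟩ := h K (δ * (K : ℝ) ^ (1 / 4 : ℝ)) (by positivity)
    (mul_le_mul_of_nonneg_right h1 hK)
  have hx1 : (1 : ℝ) ≤ (2 : ℝ) ^ K := one_le_pow₀ (by norm_num)
  have hx0 : (0 : ℝ) < (2 : ℝ) ^ K := by positivity
  refine ⟨B, fun a ha => ⟨(hB a ha).1, ?_⟩, le_trans ?_ h2,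
    h3.trans (mul_le_mul_of_nonneg_right (le_max_right _ _) hx0.le)⟩
  · have := (hB a ha).2
    rw [rpow_quarter] at this
    linarith
  · have e := exp_eq (b := 2) (K := K) le_rfl (-C) δ
    push_cast at e
    have e1 : Real.exp (-(C * (δ * (K : ℝ) ^ (1 / 4 : ℝ)) ^ 4)) =
        ((2 : ℝ) ^ K) ^ (-(C / Real.log 2 * δ ^ 4)) := by
      rw [neg_mul, neg_div, neg_mul] at e
      exact e.symm
    rw [e1, Real.sqrt_eq_rpow, mul_assoc, ← Real.rpow_add hx0]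
    refine mul_le_mul_of_nonneg_left (Real.rpow_le_rpow_of_exponent_le hx1 ?_) hc.le
    have : C / Real.log 2 * δ ^ 4 ≤ max (C / Real.log 2) C * δ ^ 4 :=
      mul_le_mul_of_nonneg_right (le_max_left _ _) (by positivity)
    linarith

end Pool.Agent.Helper5.FP.Cand
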