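import Pool.Agent.Helper5.FP.Fin
import Pool.Agent.Helper5.TQ.Text2
import Pool.Agent.Helper80.FP.Sharp

/-!
# Digits and the mean square of the representation function: fourth power tails
-/

set_option autoImplicit false

namespace Pool.Agent.Helper5.FP.Text

/-- `rep A n` is the number of ordered pairs of elements of `A` with sum `n`. -/
noncomputable def rep (A : Set ℕ) (n : ℕ) : ℕ :=
  {p : ℕ × ℕ | p.1 ∈ A ∧ p.2 ∈ A ∧ p.1 + p.2 = n}.ncard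

/-- `blocks b l v K a` is the number of `i < K` such that the digits of `a` in base `b` at the
places `i, i + 1, ..., i + l - 1` form the number `v`. -/
noncomputable def blocks (b l v K a : ℕ) : ℕ := {i | i < K ∧ a / b ^ i % b ^ l = v}.ncard

/-- `blocks2 b l u v K n a` is the number of `i < K` such that the digits at the places
`i, i + 1, ..., i + l - 1` form the number `u` for `n` and the number `v` for `a`. -/
noncomputable def blocks2 (b l u v K n a : ℕ) : ℕ :=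
  {i | i < K ∧ n / b ^ i % b ^ l = u ∧ a / b ^ i % b ^ l = v}.ncard

theorem rep_eq (A : Set ℕ) (n : ℕ) : rep A n = Pool.Agent.Helper25.RC.rep A n := by
  rw [← Pool.Agent.Helper5.TQ.Text.rep_eq]
  rfl

theorem blocks_eq (b l v K a : ℕ) : blocks b l v K a = Pool.Agent.Helper5.TQ.cnt b l v K a := by
  rw [← Pool.Agent.Helper5.TQ.Text.blocks_eq]
  rfl

theorem blocks2_eq (b l u v K n a : ℕ) :
    blocks2 b l u v K n a = Pool.Agent.Helper5.TQ.cnt2 b l u v K n a := by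
  rw [← Pool.Agent.Helper5.TQ.Text2.blocks2_eq]
  rfl

open Pool.Agent.Helper5.TQ (cnt cnt2 r_eq rep_mono)

theorem energy_mono {A : Set ℕ} {B : Finset ℕ} (hB : (B : Set ℕ) ⊆ A) (N : ℕ) :
    ∑ n ∈ Finset.range N, (Pool.Agent.Helper16.NM.r B n : ℝ) ^ 2 ≤
      ∑ n ∈ Finset.range N, (rep A n : ℝ) ^ 2 := by
  refine Finset.sum_le_sum fun n _ => ?_
  have : (Pool.Agent.Helper16.NM.r B n : ℝ) ≤ rep A n := by
    rw [r_eq, rep_eq]
    exact_mod_cast rep_mono hB n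
  exact pow_le_pow_left₀ (Nat.cast_nonneg _) this 2

theorem elements (b l : ℕ) (hb : 2 ≤ b) : ∃ c C : ℝ, 0 < c ∧ 0 < C ∧
    ∀ (A : Set ℕ) (v K : ℕ) (t : ℝ), v < b ^ l → 1 ≤ K → 0 ≤ t →
      ({a | a ∈ A ∧ a < b ^ K ∧
        t * (K : ℝ) ^ (3 / 4 : ℝ) ≤ |(blocks b l v K a : ℝ) - K / (b : ℝ) ^ l|}.ncard : ℝ) ^ 4 ≤
      C * Real.exp (-(c * t ^ 4)) *
        ((b : ℝ) ^ K * ∑ n ∈ Finset.range (2 * b ^ K), (rep A n : ℝ) ^ 2) := by
  classical
  obtain ⟨c, C, hc, hC, h⟩ := tails_elements b l hb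
  refine ⟨c, C, hc, hC, fun A v K t hv hK ht => ?_⟩
  set B : Finset ℕ := (Finset.range (b ^ K)).filter fun a => a ∈ A ∧
    t * (K : ℝ) ^ (3 / 4 : ℝ) ≤ |(cnt b l v K a : ℝ) - K / (b : ℝ) ^ l| with hB
  have e1 : {a | a ∈ A ∧ a < b ^ K ∧
      t * (K : ℝ) ^ (3 / 4 : ℝ) ≤ |(blocks b l v K a : ℝ) - K / (b : ℝ) ^ l|} = (B : Set ℕ) := by
    ext a
    rw [hB, Finset.coe_filter, Set.mem_ofPred_eq, Set.mem_ofPred_eq, Finset.mem_range, blocks_eq]
    tauto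
  rw [e1, Set.ncard_coe_finset]
  have h1 := h v K B t hv hK (Finset.filter_subset _ _) ht
    (fun a ha => (Finset.mem_filter.1 ha).2.2)
  refine h1.trans (mul_le_mul_of_nonneg_left (mul_le_mul_of_nonneg_left
    (energy_mono (fun a ha => (Finset.mem_filter.1 ha).2.1) _) (by positivity)) (by positivity))

theorem pairs (b l : ℕ) (hb : 2 ≤ b) : ∃ c C : ℝ, 0 < c ∧ 0 < C ∧
    ∀ (A : Set ℕ) (u v K : ℕ) (t : ℝ), u < b ^ l → v < b ^ l → 1 ≤ K → 0 ≤ t →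
      ({p : ℕ × ℕ | p.1 ∈ A ∧ p.2 ∈ A ∧ p.1 < b ^ K ∧ p.2 < b ^ K ∧
        t * (K : ℝ) ^ (3 / 4 : ℝ) ≤
          |(blocks2 b l u v K (p.1 + p.2) p.1 : ℝ) - K / (b : ℝ) ^ (2 * l)|}.ncard : ℝ) ^ 2 ≤
      C * Real.exp (-(c * t ^ 4)) *
        ((b : ℝ) ^ K * ∑ n ∈ Finset.range (2 * b ^ K), (rep A n : ℝ) ^ 2) := by
  classical
  obtain ⟨c, C, hc, hC, h⟩ := tails_pairs b l hb
  refine ⟨c, C, hc, hC, fun A u v K t hu hv hK ht => ?_⟩
  set B : Finset ℕ := (Finset.range (b ^ K)).filter fun a => a ∈ A with hB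
  set P : Finset (ℕ × ℕ) := (B ×ˢ B).filter fun p => t * (K : ℝ) ^ (3 / 4 : ℝ) ≤
    |(cnt2 b l u v K (p.1 + p.2) p.1 : ℝ) - K / (b : ℝ) ^ (2 * l)| with hP
  have e1 : {p : ℕ × ℕ | p.1 ∈ A ∧ p.2 ∈ A ∧ p.1 < b ^ K ∧ p.2 < b ^ K ∧
      t * (K : ℝ) ^ (3 / 4 : ℝ) ≤
        |(blocks2 b l u v K (p.1 + p.2) p.1 : ℝ) - K / (b : ℝ) ^ (2 * l)|} =
      (P : Set (ℕ × ℕ)) := by
    ext p
    rw [hP, Finset.coe_filter, Set.mem_ofPred_eq, Set.mem_ofPred_eq, Finset.mem_product, hB,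
      Finset.mem_filter, Finset.mem_filter, Finset.mem_range, Finset.mem_range, blocks2_eq]
    tauto
  rw [e1, Set.ncard_coe_finset]
  have h1 := h u v K B P t hu hv hK (Finset.filter_subset _ _) (Finset.filter_subset _ _) ht
    (fun p hp => (Finset.mem_filter.1 hp).2)
  refine h1.trans (mul_le_mul_of_nonneg_left (mul_le_mul_of_nonneg_left
    (energy_mono (fun a ha => (Finset.mem_filter.1 ha).2) _) (by positivity)) (by positivity))

theorem sum_rep_eq {K : ℕ} {B : Finset ℕ} (hB : B ⊆ Finset.range (2 ^ K)) :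
    ∑ n ∈ Finset.range (2 * 2 ^ K), (rep B n : ℝ) ^ 2 =
      ((Pool.Agent.Helper38.SP.quad B).card : ℝ) := by
  classical
  have h1 : ∀ n, (rep (B : Set ℕ) n : ℝ) = (Pool.Agent.Helper16.NM.r B n : ℝ) := by
    intro n
    rw [rep_eq, ← r_eq]
  simp only [h1]
  have h2 : Pool.Agent.Helper38.SP.quad B = (Finset.range (2 * 2 ^ K)).biUnion fun n =>
      ((B ×ˢ B).filter fun p => p.1 + p.2 = n) ×ˢ ((B ×ˢ B).filter fun p => p.1 + p.2 = n) := by
    ext q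
    unfold Pool.Agent.Helper38.SP.quad
    simp only [Finset.mem_filter, Finset.mem_product, Finset.mem_biUnion, Finset.mem_range]
    constructor
    · rintro ⟨⟨h3, h4⟩, h5⟩
      have h6 := Finset.mem_range.1 (hB h3.1)
      have h7 := Finset.mem_range.1 (hB h3.2)
      exact ⟨q.1.1 + q.1.2, by omega, ⟨h3, rfl⟩, h4, h5.symm⟩
    · rintro ⟨n, _, ⟨h3, h4⟩, h5, h6⟩
      exact ⟨⟨h3, h5⟩, h4.trans h6.symm⟩
  rw [h2, Finset.card_biUnion]
  · push_cast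
    refine Finset.sum_congr rfl fun n _ => ?_
    rw [Finset.card_product, sq]
    push_cast
    rfl
  · intro n _ m _ hnm
    rw [Function.onFun, Finset.disjoint_left]
    intro q hq hq'
    rw [Finset.mem_product, Finset.mem_filter, Finset.mem_filter] at hq hq'
    exact hnm (hq.1.2.symm.trans hq'.1.2)

theorem sharp : ∃ c C : ℝ, 0 < c ∧ ∀ (K : ℕ) (t : ℝ), 0 ≤ t → t ≤ c * (K : ℝ) ^ (1 / 4 : ℝ) →
    ∃ B : Finset ℕ, (∀ a ∈ B, a < 2 ^ K ∧
        (K : ℝ) / 2 + t * (K : ℝ) ^ (3 / 4 : ℝ) ≤ blocks 2 1 0 K a) ∧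
      c * Real.exp (-(C * t ^ 4)) * √((2 : ℝ) ^ K) ≤ B.card ∧
      ∑ n ∈ Finset.range (2 * 2 ^ K), (rep B n : ℝ) ^ 2 ≤ C * 2 ^ K := by
  obtain ⟨c, C, hc, h⟩ := Pool.Agent.Helper80.FP.sharp
  refine ⟨min c (1 / 10), C, lt_min hc (by norm_num), fun K t ht0 ht1 => ?_⟩
  have hK : (0 : ℝ) ≤ (K : ℝ) ^ (1 / 4 : ℝ) := by positivity
  have h1 : t ≤ (K : ℝ) ^ (1 / 4 : ℝ) / 10 := by
    have := mul_le_mul_of_nonneg_right (min_le_right c (1 / 10)) hK
    linarith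
  obtain ⟨B, hB, h2, h3, h4⟩ := h K t ht0 h1
  refine ⟨B, fun a ha => ⟨Finset.mem_range.1 (hB ha), ?_⟩, ?_, ?_⟩
  · have := h2 a ha
    rw [blocks_eq]
    simpa [cnt] using this
  · refine le_trans ?_ h3
    rw [neg_mul]
    exact mul_le_mul_of_nonneg_right (mul_le_mul_of_nonneg_right (min_le_left _ _)
      (Real.exp_pos _).le) (Real.sqrt_nonneg _)
  · rw [sum_rep_eq hB]
    exact h4

end Pool.Agent.Helper5.FP.Text
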